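import Pool.Agent.R592.Nj.Main
import Pool.Agent.R592.Pk.Ground

/-!
# The meaning of the sentences about `N_J` and `N*_J`
-/

set_option autoImplicit false
set_option linter.unusedSectionVars false

namespace Pool.Agent.R592.Nj

open Cardinal MeasureTheory Set Filter Topology
open Pool.Agent.TH773.PSet Pool.Agent.R593.Rnd Pool.Agent.R592.Ent Pool.Agent.R592.Sl
open Pool.Agent.R592.Pk (cmin cmin_le lt_cmin)
open scoped ENNReal

/-! ### The notions of the problem -/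

/-- `N_J(c)` -/
def NN (J : Set (Set ℕ)) (c : ℕ → Set (ℕ → Bool)) : Set (ℕ → Bool) := {x | {n | x ∈ c n} ∉ J}

/-- `N*_J(c)` -/
def NS (J : Set (Set ℕ)) (c : ℕ → Set (ℕ → Bool)) : Set (ℕ → Bool) := {x | {n | x ∉ c n} ∈ J}

/-- the ideal of the finite sets -/
def Fin' : Set (Set ℕ) := {A | A.Finite}

/-- the sequences `c` of clopen sets such that the measure of `N_Fin(c)` is `0` -/
def OmBar : Set (ℕ → Set (ℕ → Bool)) := {c | (∀ n, IsClopen (c n)) ∧ lam (NN Fin' c) = 0}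

/-- the σ-ideal `𝒩_J` -/
def calN (J : Set (Set ℕ)) : Set (Set (ℕ → Bool)) := {X | ∃ c ∈ OmBar, X ⊆ NN J c}

/-- the σ-ideal `𝒩*_J` -/
def calNS (J : Set (Set ℕ)) : Set (Set (ℕ → Bool)) := {X | ∃ c ∈ OmBar, X ⊆ NS J c}

/-- `add` -/
noncomputable def addN (I : Set (Set (ℕ → Bool))) : WithTop Cardinal.{0} :=
  cmin {κ | ∃ F ⊆ I, ⋃₀ F ∉ I ∧ #F = κ}

/-- `cof` -/
noncomputable def cofN (I : Set (Set (ℕ → Bool))) : WithTop Cardinal.{0} :=
  cmin {κ | ∃ B ⊆ I, (∀ X ∈ I, ∃ Y ∈ B, X ⊆ Y) ∧ #B = κ}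

/-- `J` is non-meagre as a subset of `2 ^ ω`. -/
def NonMeagre (J : Set (Set ℕ)) : Prop := ¬ IsMeagre {x : ℕ → Bool | {n | x n = true} ∈ J}

/-! ### Clopen sets -/

theorem measurable_cyl' (s : List Bool) : MeasurableSet (Cyl s) := (isOpen_cyl s).measurableSet

theorem isClosed_cyl (s : List Bool) : IsClosed (Cyl s) := by
  have : Cyl s = ⋂ i ∈ Finset.range s.length, {x : ℕ → Bool | x i = s.getD i false} := by
    ext x
    simp [Cyl]
  rw [this]
  refine isClosed_biInter fun i _ => ?_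
  have h1 : IsClosed ((fun x : ℕ → Bool => x i) ⁻¹' {s.getD i false}) :=
    IsClosed.preimage (continuous_apply i) (isClosed_discrete _)
  exact h1

theorem isClopen_KK (F : FS) : IsClopen (KK F) :=
  ⟨isClosed_biUnion_finset fun s _ => isClosed_cyl s, isOpen_biUnion fun s _ => isOpen_cyl s⟩

theorem exists_KK {U : Set (ℕ → Bool)} (hU : IsClopen U) : ∃ F, KK F = U := by
  classical
  have h1 : U ⊆ ⋃ s : {s : List Bool // Cyl s ⊆ U}, Cyl s.1 := by
    intro x hx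
    obtain ⟨n, -, hcyl⟩ := exists_cyl hU.isOpen hx 0
    refine mem_iUnion.2 ⟨⟨ini x n, fun y hy => ?_⟩, mem_cyl_ini x n⟩
    apply hcyl
    intro j hj
    have h2 := hy j (by rw [ini_length]; exact hj)
    rw [List.getD_eq_getElem _ _ (by rw [ini_length]; exact hj)] at h2
    rw [h2]
    simp [ini]
  obtain ⟨T, hT⟩ := hU.isClosed.isCompact.elim_finite_subcover
    (fun s : {s : List Bool // Cyl s ⊆ U} => Cyl s.1) (fun s => isOpen_cyl s.1) h1
  refine ⟨T.image Subtype.val, Subset.antisymm ?_ fun x hx => ?_⟩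
  · refine iUnion₂_subset fun s hs => ?_
    obtain ⟨s', -, rfl⟩ := Finset.mem_image.1 hs
    exact s'.2
  · obtain ⟨s, hs, hxs⟩ := mem_iUnion₂.1 (hT hx)
    exact mem_iUnion₂.2 ⟨s.1, Finset.mem_image_of_mem _ hs, hxs⟩

/-- The measure of `N_Fin(c)` is `0` iff the measures of the tails tend to `0`. -/
theorem null_iff (F : ℕ → FS) : lam (NN Fin' fun n => KK (F n)) = 0 ↔
    ∀ j : ℕ, ∃ m, ∀ T : Finset ℕ, (∀ n ∈ T, m ≤ n) →
      lam (⋃ n ∈ T, KK (F n)) ≤ (2⁻¹ : ℝ≥0∞) ^ j := by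
  have hmeas : ∀ n, MeasurableSet (KK (F n)) := fun n => (isClopen_KK (F n)).1.measurableSet
  let U : ℕ → Set (ℕ → Bool) := fun m => ⋃ n ∈ {n | m ≤ n}, KK (F n)
  have hU : NN Fin' (fun n => KK (F n)) = ⋂ m, U m := by
    ext x
    simp only [NN, Fin', mem_ofPred_eq, mem_iInter, U, mem_iUnion, exists_prop]
    rw [← Set.Infinite, ← Nat.frequently_atTop_iff_infinite, frequently_atTop]
  constructor
  · intro h j
    have h1 : Tendsto (lam ∘ U) atTop (𝓝 (lam (⋂ m, U m))) := by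
      refine tendsto_measure_iInter_atTop (fun m => ?_) ?_ ⟨0, measure_ne_top _ _⟩
      · exact (MeasurableSet.iUnion fun n => MeasurableSet.iUnion fun _ =>
          hmeas n).nullMeasurableSet
      · intro m m' hmm'
        exact biUnion_subset_biUnion_left fun n hn => hmm'.trans hn
    rw [← hU, h] at h1
    obtain ⟨m, hm⟩ := eventually_atTop.1 (h1.eventually (ge_mem_nhds
      (show (0 : ℝ≥0∞) < (2⁻¹ : ℝ≥0∞) ^ j by
        exact pos_iff_ne_zero.2 (pow_ne_zero _ (by simp)))))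
    refine ⟨m, fun T hT => (measure_mono ?_).trans (hm m le_rfl)⟩
    exact iUnion₂_subset fun n hn => subset_biUnion_of_mem (u := fun n => KK (F n)) (hT n hn)
  · intro h
    have h1 : ∀ j : ℕ, lam (NN Fin' fun n => KK (F n)) ≤ (2⁻¹ : ℝ≥0∞) ^ j := by
      intro j
      obtain ⟨m, hm⟩ := h j
      rw [hU]
      refine (measure_mono (iInter_subset U m)).trans ?_
      have h2 : U m = ⋃ k : ℕ, ⋃ n ∈ (Finset.range k).filter (fun n => m ≤ n), KK (F n) := by
        ext x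
        simp only [U, mem_iUnion, exists_prop, mem_ofPred_eq, Finset.mem_filter, Finset.mem_range]
        constructor
        · rintro ⟨n, hn, hx⟩
          exact ⟨n + 1, n, ⟨Nat.lt_succ_self n, hn⟩, hx⟩
        · rintro ⟨k, n, ⟨-, hn⟩, hx⟩
          exact ⟨n, hn, hx⟩
      rw [h2, Monotone.measure_iUnion]
      · exact iSup_le fun k => hm _ fun n hn => (Finset.mem_filter.1 hn).2
      · intro k k' hkk'
        refine biUnion_subset_biUnion_left fun n hn => ?_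
        have hn' : n ∈ (Finset.range k).filter (fun n => m ≤ n) := hn
        rw [Finset.mem_filter, Finset.mem_range] at hn'
        show n ∈ (Finset.range k').filter (fun n => m ≤ n)
        rw [Finset.mem_filter, Finset.mem_range]
        exact ⟨hn'.1.trans_le hkk', hn'.2⟩
    refine le_antisymm (ge_of_tendsto' (ENNReal.tendsto_pow_atTop_nhds_zero_of_lt_one
      (r := (2 : ℝ≥0∞)⁻¹) (ENNReal.inv_lt_one.2 (by norm_num))) h1) bot_le

/-! ### The meaning of the sentences -/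

theorem unit_omB {c : ℕ → FS → Set Unit} : () ∈ OmB c ↔
    ∃ F : ℕ → FS, (∀ n E, () ∈ c n E ↔ F n = E) ∧ (fun n => KK (F n)) ∈ OmBar := by
  simp only [OmB, mem_fand, unit_isFun, mem_fall, unit_fex]
  have key : ∀ F : ℕ → FS, (∀ n E, () ∈ c n E ↔ F n = E) →
      ((∀ j : ℕ, ∃ m, () ∈ Sm c j m) ↔ (fun n => KK (F n)) ∈ OmBar) := by
    intro F hF
    have h0 : (fun n => KK (F n)) ∈ OmBar ↔ lam (NN Fin' fun n => KK (F n)) = 0 :=
      ⟨fun h => h.2, fun h => ⟨fun n => isClopen_KK _, h⟩⟩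
    rw [h0, null_iff]
    refine forall_congr' fun j => exists_congr fun m => ?_
    simp only [Sm, mem_fall, unit_fnot, unit_meets, hF]
    classical
    constructor
    · intro h T hT
      by_contra hlt
      rw [not_le] at hlt
      refine h (T.image fun n => (n, F n)) ⟨fun t ht => ?_, ?_⟩ fun t ht => ?_
      · obtain ⟨n, hn, rfl⟩ := Finset.mem_image.1 ht
        exact hT n hn
      · refine hlt.trans_le (measure_mono (iUnion₂_subset fun n hn => ?_))
        exact subset_biUnion_of_mem (s := {t | t ∈ T.image fun n => (n, F n)})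
          (u := fun t : ℕ × FS => KK t.2) (Finset.mem_image_of_mem (fun n => (n, F n)) hn)
      · obtain ⟨n, hn, rfl⟩ := Finset.mem_image.1 ht
        rfl
    · intro h T hT hT'
      have h1 := h (T.image Prod.fst) fun n hn => by
        obtain ⟨t, ht, rfl⟩ := Finset.mem_image.1 hn
        exact hT.1 t ht
      refine absurd (hT.2.trans_le ((measure_mono (iUnion₂_subset fun t ht => ?_)).trans h1))
        (lt_irrefl _)
      rw [← hT' t ht]
      exact subset_biUnion_of_mem (s := {n | n ∈ T.image Prod.fst})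
        (u := fun n => KK (F n)) (Finset.mem_image_of_mem Prod.fst ht)
  constructor
  · rintro ⟨⟨F, hF⟩, h⟩
    exact ⟨F, hF, (key F hF).1 h⟩
  · rintro ⟨F, hF, h⟩
    exact ⟨⟨F, hF⟩, (key F hF).2 h⟩

theorem unit_inC {X : RName Unit} {c : ℕ → FS → Set Unit} {F : ℕ → FS}
    (hF : ∀ n E, () ∈ c n E ↔ F n = E) (n : ℕ) : () ∈ InC X c n ↔ pt X ∈ KK (F n) := by
  simp only [InC, unit_fex, mem_fand, unit_meets, hF, unit_inCyl, KK, mem_iUnion, exists_prop]
  exact ⟨fun ⟨E, hE, h⟩ => hE ▸ h, fun h => ⟨_, rfl, h⟩⟩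

theorem unit_Ev {X : RName Unit} {c : ℕ → FS → Set Unit} {F : ℕ → FS}
    (hF : ∀ n E, () ∈ c n E ↔ F n = E) (J : FName Unit) :
    () ∈ Mem (Ev X c) J ↔ pt X ∉ NN (e2 J) fun n => KK (F n) := by
  rw [u_Mem]
  have : e (Ev X c) = {n | pt X ∈ KK (F n)} := by
    ext n
    exact unit_inC hF n
  rw [this]
  simp [NN]

theorem unit_Od {X : RName Unit} {c : ℕ → FS → Set Unit} {F : ℕ → FS}
    (hF : ∀ n E, () ∈ c n E ↔ F n = E) (J : FName Unit) :
    () ∈ Mem (Od X c) J ↔ pt X ∈ NS (e2 J) fun n => KK (F n) := by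
  rw [u_Mem]
  have : e (Od X c) = {n | pt X ∉ KK (F n)} := by
    ext n
    show () ∈ fnot (InC X c n) ↔ _
    rw [unit_fnot, unit_inC hF n]
    rfl
  rw [this]
  rfl

theorem unit_starSub {c d : ℕ → FS → Set Unit} {F G : ℕ → FS}
    (hF : ∀ n E, () ∈ c n E ↔ F n = E) (hG : ∀ n E, () ∈ d n E ↔ G n = E) (J : FName Unit) :
    () ∈ StarSub J c d ↔ NS (e2 J) (fun n => KK (F n)) ⊆ NS (e2 J) fun n => KK (G n) := by
  simp only [StarSub, mem_fall, unit_fimp, unit_Od hF, unit_Od hG]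
  constructor
  · intro h x hx
    have := h (nm x)
    rw [pt_nm] at this
    exact this hx
  · intro h X hX
    exact h hX

/-- the combinatorial form of being non-meagre -/
def Tal (J : Set (Set ℕ)) : Prop :=
  ∀ f : ℕ → ℕ, ∃ A ∈ J, ∀ m, ∃ k, m ≤ k ∧ ∀ n, k ≤ n → n ≤ f k → n ∈ A

theorem unit_nonMg {J : FName Unit} : () ∈ NonMg J ↔ Tal (e2 J) := by
  simp only [NonMg, mem_fall, unit_fimp, unit_isFun, unit_fex, mem_fand, u_Mem, unit_meets]
  constructor
  · intro h f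
    obtain ⟨A, hA, h1⟩ := h (fun n k => {_p | f n = k}) ⟨f, fun _ _ => Iff.rfl⟩
    refine ⟨e A, hA, fun m => ?_⟩
    obtain ⟨k, hk, h2⟩ := h1 m
    exact ⟨k, hk, fun n hn hn' => h2 (f k) rfl n hn hn'⟩
  · rintro h f ⟨f', hf⟩
    obtain ⟨A, hA, h1⟩ := h f'
    refine ⟨e.symm A, by rwa [e.apply_symm_apply], fun m => ?_⟩
    obtain ⟨k, hk, h2⟩ := h1 m
    refine ⟨k, hk, fun l hl n hn hn' => ?_⟩
    rw [hf] at hl
    subst hl
    exact h2 n hn hn'

theorem nonMeagre_of_tal {J : Set (Set ℕ)} (hJ : Ideal' J) (h : Tal J) : NonMeagre J := by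
  intro hm
  obtain ⟨i, hi, z, hz⟩ := meagre_capture hm
  obtain ⟨A, hA, hA'⟩ := h fun k => i (k + 1)
  have hB : {n | n ∈ A ∧ z n = true} ∈ J := hJ.down _ _ (fun n hn => hn.1) hA
  classical
  let x : ℕ → Bool := fun n => decide (n ∈ A ∧ z n = true)
  have hx : {n | x n = true} ∈ J := by
    convert hB using 3
    simp [x]
  obtain ⟨N, hN⟩ := eventually_atTop.1 (hz x hx)
  obtain ⟨k, hk, hk'⟩ := hA' (i (N + 1))
  -- the interval from `i k` to `i (k + 1)` is included in `A`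
  have h1 : N ≤ k := by
    have := hi.id_le (N + 1)
    simp only [id] at this
    omega
  obtain ⟨j, hj1, hj2, hj3⟩ := hN k h1
  apply hj3
  have hki : k ≤ i k := hi.id_le k
  have hjA : j ∈ A := hk' j (hki.trans hj1) hj2.le
  cases hzj : z j <;> simp [x, hjA, hzj]

/-! ### The consequences for `add` and `cof` -/

theorem NN_ne_univ {J : Set (Set ℕ)} (hJ : Ideal' J) {c : ℕ → Set (ℕ → Bool)} (hc : c ∈ OmBar) :
    NN J c ≠ Set.univ := by
  intro h
  have h1 : NN J c ⊆ NN Fin' c := fun x hx h' => hx (hJ.finite _ h')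
  have h2 := measure_mono (μ := lam) h1
  rw [h, hc.2, measure_univ] at h2
  exact absurd h2 (not_le.2 one_pos)

theorem unit_covLe {J : FName Unit} {Y : Type} : () ∈ CovLe J Y ↔
    ∃ D : Y → ℕ → Set (ℕ → Bool), (∀ y, D y ∈ OmBar) ∧ ∀ x, ∃ y, x ∈ NN (e2 J) (D y) := by
  simp only [CovLe, unit_fex, mem_fand, mem_fall, unit_omB, unit_fnot]
  constructor
  · rintro ⟨D, h1, h2⟩
    choose F hF hF' using h1
    refine ⟨fun y n => KK (F y n), hF', fun x => ?_⟩
    obtain ⟨y, hy⟩ := h2 (nm x)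
    rw [unit_Ev (hF y), pt_nm, not_not] at hy
    exact ⟨y, hy⟩
  · rintro ⟨D, h1, h2⟩
    choose F hF using fun (y : Y) n => exists_KK ((h1 y).1 n)
    refine ⟨fun y n E => {_p | F y n = E}, fun y => ⟨F y, fun _ _ => Iff.rfl, ?_⟩, fun X => ?_⟩
    · have : (fun n => KK (F y n)) = D y := funext (hF y)
      rw [this]
      exact h1 y
    · obtain ⟨y, hy⟩ := h2 (pt X)
      refine ⟨y, ?_⟩
      rw [unit_Ev (F := F y) fun _ _ => Iff.rfl, not_not]
      have : (fun n => KK (F y n)) = D y := funext (hF y)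
      rw [this]
      exact hy

theorem unit_nonLe {J : FName Unit} {Z : Type} : () ∈ NonLe J Z ↔
    ∃ X : Z → ℕ → Bool, ∀ c ∈ OmBar, ∃ z, X z ∉ NN (e2 J) c := by
  simp only [NonLe, unit_fex, mem_fall, unit_fimp, unit_omB]
  constructor
  · rintro ⟨X, h⟩
    refine ⟨fun z => pt (X z), fun c hc => ?_⟩
    choose F hF using fun n => exists_KK (hc.1 n)
    have hFc : (fun n => KK (F n)) = c := funext hF
    obtain ⟨z, hz⟩ := h (fun n E => {_p | F n = E}) ⟨F, fun _ _ => Iff.rfl, by rwa [hFc]⟩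
    rw [unit_Ev (F := F) fun _ _ => Iff.rfl, hFc] at hz
    exact ⟨z, hz⟩
  · rintro ⟨X, h⟩
    refine ⟨fun z => nm (X z), fun c ⟨F, hF, hF'⟩ => ?_⟩
    obtain ⟨z, hz⟩ := h _ hF'
    refine ⟨z, ?_⟩
    rw [unit_Ev hF, pt_nm]
    exact hz

theorem unit_addStarLe {J : FName Unit} {Y : Type} : () ∈ AddStarLe J Y ↔
    ∃ D : Y → ℕ → Set (ℕ → Bool), (∀ y, D y ∈ OmBar) ∧
      ∀ c ∈ OmBar, ∃ y, ¬ NS (e2 J) (D y) ⊆ NS (e2 J) c := by
  simp only [AddStarLe, unit_fex, mem_fand, mem_fall, unit_omB, unit_fnot, unit_fimp]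
  constructor
  · rintro ⟨D, h1, h2⟩
    choose F hF hF' using h1
    refine ⟨fun y n => KK (F y n), hF', fun c hc => ?_⟩
    choose G hG using fun n => exists_KK (hc.1 n)
    have hGc : (fun n => KK (G n)) = c := funext hG
    obtain ⟨y, hy⟩ := h2 (fun n E => {_p | G n = E}) ⟨G, fun _ _ => Iff.rfl, by rwa [hGc]⟩
    rw [unit_starSub (hF y) (G := G) fun _ _ => Iff.rfl, hGc] at hy
    exact ⟨y, hy⟩
  · rintro ⟨D, h1, h2⟩
    choose F hF using fun (y : Y) n => exists_KK ((h1 y).1 n)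
    have hFD : ∀ y, (fun n => KK (F y n)) = D y := fun y => funext (hF y)
    refine ⟨fun y n E => {_p | F y n = E}, fun y => ⟨F y, fun _ _ => Iff.rfl, ?_⟩,
      fun c ⟨G, hG, hG'⟩ => ?_⟩
    · rw [hFD]
      exact h1 y
    · obtain ⟨y, hy⟩ := h2 _ hG'
      refine ⟨y, ?_⟩
      rw [unit_starSub (F := F y) (fun _ _ => Iff.rfl) hG, hFD]
      exact hy

theorem unit_cofStarLe {J : FName Unit} {Z : Type} : () ∈ CofStarLe J Z ↔
    ∃ D : Z → ℕ → Set (ℕ → Bool), (∀ z, D z ∈ OmBar) ∧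
      ∀ c ∈ OmBar, ∃ z, NS (e2 J) c ⊆ NS (e2 J) (D z) := by
  simp only [CofStarLe, unit_fex, mem_fand, mem_fall, unit_omB, unit_fimp]
  constructor
  · rintro ⟨D, h1, h2⟩
    choose F hF hF' using h1
    refine ⟨fun y n => KK (F y n), hF', fun c hc => ?_⟩
    choose G hG using fun n => exists_KK (hc.1 n)
    have hGc : (fun n => KK (G n)) = c := funext hG
    obtain ⟨y, hy⟩ := h2 (fun n E => {_p | G n = E}) ⟨G, fun _ _ => Iff.rfl, by rwa [hGc]⟩
    rw [unit_starSub (F := G) (fun _ _ => Iff.rfl) (hF y), hGc] at hy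
    exact ⟨y, hy⟩
  · rintro ⟨D, h1, h2⟩
    choose F hF using fun (y : Z) n => exists_KK ((h1 y).1 n)
    have hFD : ∀ y, (fun n => KK (F y n)) = D y := fun y => funext (hF y)
    refine ⟨fun y n E => {_p | F y n = E}, fun y => ⟨F y, fun _ _ => Iff.rfl, ?_⟩,
      fun c ⟨G, hG, hG'⟩ => ?_⟩
    · rw [hFD]
      exact h1 y
    · obtain ⟨y, hy⟩ := h2 _ hG'
      refine ⟨y, ?_⟩
      rw [unit_starSub hG (G := F y) fun _ _ => Iff.rfl, hFD]
      exact hy

/-- The cardinal inequalities expressed by the sentence `Model`. -/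
structure Sep (J : Set (Set ℕ)) (Y Z : Type) : Prop where
  ideal : Ideal' J
  tal : Tal J
  cov : ∃ D : Y → ℕ → Set (ℕ → Bool), (∀ y, D y ∈ OmBar) ∧ ∀ x, ∃ y, x ∈ NN J (D y)
  add : ∀ D : Y → ℕ → Set (ℕ → Bool), (∀ y, D y ∈ OmBar) →
    ∃ c ∈ OmBar, ∀ y, NS J (D y) ⊆ NS J c
  cof : ∃ D : Z → ℕ → Set (ℕ → Bool), (∀ z, D z ∈ OmBar) ∧
    ∀ c ∈ OmBar, ∃ z, NS J c ⊆ NS J (D z)
  non : ∀ X : Z → ℕ → Bool, ∃ c ∈ OmBar, ∀ z, X z ∈ NN J c

theorem unit_model {Y Z : Type} {p : Unit} : p ∈ Model Unit Y Z ↔ ∃ J, Sep J Y Z := by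
  obtain rfl : p = () := rfl
  simp only [Model, unit_fex, mem_fand, unit_isIdeal, unit_nonMg, unit_covLe, unit_fnot,
    unit_addStarLe, unit_cofStarLe, unit_nonLe]
  push Not
  constructor
  · rintro ⟨J, h1, h2, ⟨h3, h4⟩, h5, h6⟩
    exact ⟨e2 J, h1, h2, h3, h4, h5, h6⟩
  · rintro ⟨J, h1, h2, h3, h4, h5, h6⟩
    refine ⟨e2.symm J, ?_⟩
    rw [e2.apply_symm_apply]
    exact ⟨h1, h2, ⟨h3, h4⟩, h5, h6⟩

theorem NS_sub_NN {J : Set (Set ℕ)} (hJ : Ideal' J) (c : ℕ → Set (ℕ → Bool)) :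
    NS J c ⊆ NN J c := by
  intro x hx hx'
  apply hJ.proper
  have h1 : {n | x ∈ c n} ∪ {n | x ∉ c n} = Set.univ := by
    ext n
    simp [em]
  rw [← h1]
  exact hJ.union _ _ hx' hx

theorem Sep.result {J : Set (Set ℕ)} {Y Z : Type} (h : Sep J Y Z) :
    Ideal' J ∧ NonMeagre J ∧
      addN (calN J) ≤ ((#Y : Cardinal.{0}) : WithTop Cardinal.{0}) ∧
      ((#Y : Cardinal.{0}) : WithTop Cardinal.{0}) < addN (calNS J) ∧
      cofN (calNS J) ≤ ((#Z : Cardinal.{0}) : WithTop Cardinal.{0}) ∧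
      ((#Z : Cardinal.{0}) : WithTop Cardinal.{0}) < cofN (calN J) := by
  refine ⟨h.ideal, nonMeagre_of_tal h.ideal h.tal, ?_, ?_, ?_, ?_⟩
  · obtain ⟨D, hD, hx⟩ := h.cov
    refine cmin_le.2 ⟨#(range fun y => NN J (D y)), ⟨range fun y => NN J (D y), ?_, ?_, rfl⟩,
      mk_range_le⟩
    · rintro _ ⟨y, rfl⟩
      exact ⟨D y, hD y, subset_rfl⟩
    · rintro ⟨c, hc, hc'⟩
      apply NN_ne_univ h.ideal hc
      rw [eq_univ_iff_forall]
      intro x
      obtain ⟨y, hy⟩ := hx x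
      exact hc' ⟨_, ⟨y, rfl⟩, hy⟩
  · refine lt_cmin fun κ hκ => ?_
    obtain ⟨F, hF, hF', rfl⟩ := hκ
    by_contra hle
    rw [not_lt] at hle
    obtain ⟨f⟩ := hle
    choose c hc hc' using fun X : F => hF X.2
    by_cases hne : Nonempty F
    · obtain ⟨d, hd, hd'⟩ := h.add (fun y => c (Function.invFun f y)) fun y => hc _
      refine hF' ⟨d, hd, sUnion_subset fun X hX => ?_⟩
      have h1 := hd' (f ⟨X, hX⟩)
      simp only [Function.leftInverse_invFun f.injective _] at h1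
      exact (hc' ⟨X, hX⟩).trans h1
    · refine hF' ?_
      have h1 : F = ∅ := by
        rw [Set.nonempty_coe_sort, Set.not_nonempty_iff_eq_empty] at hne
        exact hne
      rw [h1, sUnion_empty]
      obtain ⟨D, hD, hx⟩ := h.cov
      obtain ⟨y, -⟩ := hx fun _ => false
      exact ⟨D y, hD y, empty_subset _⟩
  · obtain ⟨D, hD, hc⟩ := h.cof
    refine cmin_le.2 ⟨#(range fun z => NS J (D z)), ⟨range fun z => NS J (D z), ?_, ?_, rfl⟩,
      mk_range_le⟩
    · rintro _ ⟨z, rfl⟩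
      exact ⟨D z, hD z, subset_rfl⟩
    · rintro X ⟨c, hc1, hX⟩
      obtain ⟨z, hz⟩ := hc c hc1
      exact ⟨_, ⟨z, rfl⟩, hX.trans hz⟩
  · refine lt_cmin fun κ hκ => ?_
    obtain ⟨B, hB, hB', rfl⟩ := hκ
    by_contra hle
    rw [not_lt] at hle
    obtain ⟨f⟩ := hle
    have h1 : ∀ X : B, ∃ x, x ∉ X.1 := by
      intro X
      obtain ⟨c, hc, hXc⟩ := hB X.2
      by_contra hcon
      push Not at hcon
      exact NN_ne_univ h.ideal hc (eq_univ_of_forall fun x => hXc (hcon x))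
    choose x hx using h1
    have hne : Nonempty B := by
      obtain ⟨D, hD, -⟩ := h.cof
      obtain ⟨D', hD', hx'⟩ := h.cov
      obtain ⟨y, -⟩ := hx' fun _ => false
      obtain ⟨X, hX, -⟩ := hB' (NN J (D' y)) ⟨_, hD' y, subset_rfl⟩
      exact ⟨⟨X, hX⟩⟩
    obtain ⟨c, hc, hc'⟩ := h.non fun z => x (Function.invFun f z)
    obtain ⟨X, hX, hX'⟩ := hB' (NN J c) ⟨c, hc, subset_rfl⟩
    have h2 := hc' (f ⟨X, hX⟩)
    simp only [Function.leftInverse_invFun f.injective _] at h2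
    exact hx ⟨X, hX⟩ (hX' h2)

/-! ### The choice of the parameters -/

theorem exists_model : ∃ (Y Z P : Type) (_ : Preorder P), #Y = ℵ₁ ∧ #Z = ℵ_ 2 ∧ Nonempty P ∧
    ∀ p : P, p ∈ Model P Y Z := by
  let Y : Type := (ℵ₁ : Cardinal.{0}).out
  have hY : #Y = ℵ₁ := mk_out _
  let κ : Cardinal.{0} := ℵ_ 2
  have h12 : (ℵ₁ : Cardinal.{0}) < κ := aleph_lt_aleph.2 (by norm_num)
  have hκ : κ.IsRegular := by
    have h1 : κ = ℵ_ (1 + 1) := by
      show ℵ_ 2 = ℵ_ (1 + 1)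
      norm_num
    rw [h1]
    exact isRegular_aleph_add_one _
  let K : Type := κ.ord.ToType
  have hK : #K = κ := mk_ord_toType _
  let Λ : Type := Set K
  have hΛ : #K < #Λ := by
    show #K < #(Set K)
    rw [mk_set]
    exact cantor _
  refine ⟨Y, K, Fn (Crd Λ K), inferInstance, hY, hK, ⟨⟨∅, fun _ => 0⟩⟩, fun p => ?_⟩
  refine model (by rw [hK]; exact aleph0_lt_aleph_one.trans h12) (fun T hT => ?_)
    (by rw [hY]; exact aleph0_lt_aleph_one) (by rw [hY, hK]; exact h12) hΛ p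
  by_contra hcon
  push Not at hcon
  have h1 : IsCofinal T := fun α => by
    obtain ⟨β, hβ, hβ'⟩ := hcon α
    exact ⟨β, hβ, hβ'⟩
  have h2 := Order.cof_le h1
  rw [Ordinal.cof_toType, hκ.cof_ord, ← hK] at h2
  exact absurd h2 (not_le.2 hT)

end Pool.Agent.R592.Nj
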