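import Pool.Agent.R592.Nj.Tree

/-!
# The ideal, and the sentences which are forced
-/

set_option autoImplicit false
set_option linter.unusedSectionVars false

namespace Pool.Agent.R592.Nj

open Cardinal MeasureTheory Set Filter Topology
open Pool.Agent.TH773.PSet Pool.Agent.R593.Rnd Pool.Agent.R592.Ent Pool.Agent.R592.Sl
open Pool.Agent.R592.Pk
open scoped ENNReal

variable {Λ K : Type} [LinearOrder K]

/-! ### The ideal -/

theorem reg_TT (B : Finset (Gn Λ K)) (r n : ℕ) : Reg (TT B r n) := by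
  cases r with
  | zero => exact ⟨fun _ _ _ _ => trivial, fun _ _ => trivial⟩
  | succ r => exact reg_fall fun _ => reg_fall fun _ => reg_fex _

theorem TT_mono {B B' : Finset (Gn Λ K)} (hB : B ⊆ B') {r r' : ℕ} (hr : r ≤ r') (n : ℕ) :
    TT B' r' n ⊆ TT B r n := by
  induction r generalizing r' n with
  | zero => exact fun _ _ => trivial
  | succ r ih =>
    obtain ⟨r'', rfl⟩ : ∃ r'', r' = r'' + 1 := ⟨r' - 1, by omega⟩
    intro p hp g hg
    refine mem_fex.2 fun q hq => ?_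
    obtain ⟨s, hs, v, h1, h2, h3⟩ := mem_fex.1 (hp g (hB hg)) q hq
    exact ⟨s, hs, v, h1, h2, ih (by omega) _ h3⟩

/-- the complements of the sets of good nodes -/
def Cp (i : Finset (Gn Λ K) × ℕ) : RName (Fn (Crd Λ K)) := fun n => fnot (TT i.1 i.2 n)

variable (Λ K) in
/-- the ideal -/
def JJ : FName (Fn (Crd Λ K)) := Idl (Cp (Λ := Λ) (K := K))

theorem fnot_Cp {i : Finset (Gn Λ K) × ℕ} {n : ℕ} :
    fnot (meets (Cp i n)) = TT i.1 i.2 n := by
  ext p
  constructor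
  · intro h
    refine (reg_TT _ _ _).2 p fun q hq => ?_
    by_contra hcon
    push Not at hcon
    exact h q hq (subset_meets (down_fnot _) hcon)
  · intro h q hq hq'
    obtain ⟨r, hr, s, hs, hrs⟩ := hq' q le_rfl
    exact hs r hrs (down_TT _ _ _ p h r (hr.trans hq))

theorem exists_union (F : Finset (Finset (Gn Λ K) × ℕ)) :
    ∃ (B : Finset (Gn Λ K)) (R : ℕ), ∀ i ∈ F, i.1 ⊆ B ∧ i.2 ≤ R := by
  classical
  exact ⟨F.biUnion Prod.fst, F.sup Prod.snd, fun i hi =>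
    ⟨Finset.subset_biUnion_of_mem Prod.fst hi, Finset.le_sup (f := Prod.snd) hi⟩⟩

theorem isIdeal_JJ [Nonempty Λ] (p : Fn (Crd Λ K)) : p ∈ IsIdeal (JJ Λ K) := by
  refine isIdeal_Idl (fun F m p => ?_) p
  obtain ⟨i⟩ : Nonempty Λ := inferInstance
  obtain ⟨B, R, hBR⟩ := exists_union F
  obtain ⟨n, hn, q, hq, h1, h2⟩ := tree B R m p i fun _ => {0}
  refine ⟨n, hn, ins (Crd.c i, n) 0 q, (ins_le h1).trans hq, fun j hj => ?_⟩
  rw [fnot_Cp]
  exact TT_mono (hBR j hj).1 (hBR j hj).2 n (h2 0 (Finset.mem_singleton_self 0))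

/-! ### The generic sequences of clopen sets -/

/-- the sequence of clopen sets coded by the generic function at `c` -/
def sq (c : Crd Λ K) (n : ℕ) (E : FS) : Set (Fn (Crd Λ K)) :=
  {p | (c, n) ∈ p.dom ∧ ee n (p.val (c, n)) = E}

theorem down_sq (c : Crd Λ K) (n : ℕ) (E : FS) : Down (sq c n E) :=
  fun _ hp _ hq => ⟨hq.1 hp.1, by rw [hq.2 _ hp.1]; exact hp.2⟩

theorem mem_sq_of {c : Crd Λ K} {n : ℕ} {E : FS} {p : Fn (Crd Λ K)} (h : p ∈ meets (sq c n E)) :
    ∃ q ≤ p, q ∈ sq c n E := by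
  obtain ⟨r, hr, s, hs, hrs⟩ := h p le_rfl
  exact ⟨r, hr, down_sq c n E s hs r hrs⟩

theorem omB_sq (c : Crd Λ K) (p : Fn (Crd Λ K)) : p ∈ OmB (sq c) := by
  classical
  have huniq : ∀ q : Fn (Crd Λ K), ∀ n F F', q ∈ meets (sq c n F) → q ∈ meets (sq c n F') →
      F = F' := by
    intro q n F F' h h'
    obtain ⟨r, hr, hr'⟩ := mem_sq_of h
    obtain ⟨s, hs, hs'⟩ := mem_sq_of ((reg_meets _).1 q h' r hr)
    exact (down_sq c n F r hr' s hs).2.symm.trans hs'.2
  refine ⟨⟨fun n => mem_fex.2 fun q _ => ?_, fun n F F' hne q _ hq => hne (huniq q n F F' hq.1 hq.2)⟩,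
    fun j => mem_fex_of j fun q _ T hT r _ hr => ?_⟩
  · obtain ⟨r, hr, k, hk⟩ := exists_gr c n q
    exact ⟨r, hr, ee n k, subset_meets (down_sq _ _ _) ⟨hk.1, by rw [hk.2]⟩⟩
  · -- the codes in `T` are determined by their indices, and they have small measures
    have h1 : ∀ t ∈ T, lam (KK t.2) ≤ (2⁻¹ : ℝ≥0∞) ^ (t.1 + 1) := by
      intro t ht
      obtain ⟨s, -, hs⟩ := mem_sq_of (hr t ht)
      rw [← hs.2]
      exact lam_ee _ _
    have h2 : ∀ t ∈ T, ∀ t' ∈ T, t.1 = t'.1 → t = t' := by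
      intro t ht t' ht' h
      refine Prod.ext h (huniq r t.1 t.2 t'.2 (hr t ht) ?_)
      rw [h]
      exact hr t' ht'
    have h3 : ∑ t ∈ T, (2⁻¹ : ℝ≥0∞) ^ (t.1 + 1) = ∑ n ∈ T.image Prod.fst, (2⁻¹ : ℝ≥0∞) ^ (n + 1) := by
      rw [Finset.sum_image h2]
    have h4 : ∑ n ∈ T.image Prod.fst, (2⁻¹ : ℝ≥0∞) ^ (n + 1) ≤ (2⁻¹ : ℝ≥0∞) ^ j := by
      have h5 : (T.image Prod.fst) ⊆ (Finset.range (T.image Prod.fst).card.succ) ∪
          (T.image Prod.fst) := Finset.subset_union_right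
      have h6 : T.image Prod.fst = ((T.image Prod.fst).image fun n => n - j).image
          fun n => n + j := by
        rw [Finset.image_image]
        ext n
        simp only [Finset.mem_image, Function.comp]
        constructor
        · rintro ⟨t, ht, rfl⟩
          exact ⟨t.1, ⟨t, ht, rfl⟩, Nat.sub_add_cancel (hT.1 t ht)⟩
        · rintro ⟨m, ⟨t, ht, rfl⟩, rfl⟩
          exact ⟨t, ht, (Nat.sub_add_cancel (hT.1 t ht)).symm⟩
      rw [h6, Finset.sum_image (fun a _ b _ h => by simpa using h)]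
      calc ∑ n ∈ (T.image Prod.fst).image fun n => n - j, (2⁻¹ : ℝ≥0∞) ^ (n + j + 1)
          = ∑ n ∈ (T.image Prod.fst).image fun n => n - j,
              (2⁻¹ : ℝ≥0∞) ^ j * (2⁻¹ : ℝ≥0∞) ^ (n + 1) := by
            refine Finset.sum_congr rfl fun n _ => ?_
            rw [← pow_add]
            congr 1
            ring
        _ = (2⁻¹ : ℝ≥0∞) ^ j * ∑ n ∈ (T.image Prod.fst).image fun n => n - j,
              (2⁻¹ : ℝ≥0∞) ^ (n + 1) := by rw [Finset.mul_sum]
        _ ≤ (2⁻¹ : ℝ≥0∞) ^ j * ∑' n : ℕ, (2⁻¹ : ℝ≥0∞) ^ (n + 1) :=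
            mul_le_mul_right (ENNReal.sum_le_tsum _) _
        _ = (2⁻¹ : ℝ≥0∞) ^ j := by
            rw [ENNReal.tsum_geometric_add_one, ENNReal.one_sub_inv_two, inv_inv,
              ENNReal.inv_mul_cancel two_ne_zero ENNReal.ofNat_ne_top, mul_one]
    have h7 : lam (⋃ t ∈ T, KK t.2) ≤ (2⁻¹ : ℝ≥0∞) ^ j :=
      (measure_biUnion_finset_le _ _).trans ((Finset.sum_le_sum h1).trans (h3.le.trans h4))
    exact absurd hT.2 (not_lt.2 h7)

/-! ### A point is caught by a generic sequence which it does not depend on -/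

/-- Finitely many bits of `X` can be decided by adding coordinates in the support of `X`. -/
theorem exists_bits {U : Set (Crd Λ K)} {X : RName (Fn (Crd Λ K))}
    (hX : ∀ k, Sp U (meets (X k))) (l : ℕ) (q : Fn (Crd Λ K)) :
    ∃ q' ≤ q, (∀ u ∈ q'.dom, u ∈ q.dom ∨ u.1 ∈ U) ∧ ∃ s : List Bool, s.length = l ∧
      q' ∈ InCyl X s := by
  induction l with
  | zero =>
    exact ⟨q, le_rfl, fun u hu => Or.inl hu, [], rfl, fun i hi => absurd hi (Nat.not_lt_zero i)⟩
  | succ l ih =>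
    obtain ⟨q1, h1, h2, s, hs, h3⟩ := ih
    have hreg : ∀ s : List Bool, Down (InCyl X s) := fun s => down_fall fun i => down_fall fun _ => by
      split_ifs
      · exact (reg_meets _).1
      · exact down_fnot _
    have hnew : ∃ q2 ≤ q1, (∀ u ∈ q2.dom, u ∈ q1.dom ∨ u.1 ∈ U) ∧ ∃ b : Bool,
        q2 ∈ (if b = true then meets (X l) else fnot (meets (X l))) := by
      by_cases h : ∃ r ≤ q1, r ∈ meets (X l)
      · obtain ⟨r, hr, hr'⟩ := h
        obtain ⟨q2, h4, h5, h6⟩ := exists_glue (agree_of_le hr (le_res U r))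
        refine ⟨q2, h4, fun u hu => ?_, true, ?_⟩
        · rcases h6 u hu with h | h
          · exact Or.inl h
          · exact Or.inr (mem_res.1 h).2
        · rw [if_pos rfl]
          exact (reg_meets _).1 _ (hX l r hr') q2 h5
      · push Not at h
        refine ⟨q1, le_rfl, fun u hu => Or.inl hu, false, ?_⟩
        rw [if_neg (by simp)]
        exact h
    obtain ⟨q2, h4, h5, b, hb⟩ := hnew
    refine ⟨q2, h4.trans h1, fun u hu => ?_, s ++ [b], by simp [hs], fun i hi => ?_⟩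
    · rcases h5 u hu with h | h
      · exact h2 u h
      · exact Or.inr h
    · rw [List.length_append, List.length_singleton] at hi
      by_cases hil : i < s.length
      · rw [List.getD_append _ _ _ _ hil]
        exact hreg s q1 h3 q2 h4 i hil
      · have : i = l := by omega
        subst this
        have h6 : (s ++ [b]).getD i false = b := by
          rw [List.getD_append_right _ _ _ _ (by omega)]
          simp [hs]
        rw [h6]
        exact hb

theorem exists_code_string (n : ℕ) : ∃ V : Finset ℕ, ∀ s : List Bool, s.length = n + 1 →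
    ∃ v ∈ V, ee n v = {s} := by
  classical
  have h1 : ∀ s : List Bool, ∃ v, s.length = n + 1 → ee n v = {s} := by
    intro s
    by_cases hs : s.length = n + 1
    · obtain ⟨v, -, hv⟩ := exists_code (n := n) (u := n) (E := {s}) le_rfl (by
        have : KK {s} = Cyl s := by simp [KK]
        rw [this, lam_cyl, hs])
      exact ⟨v, fun _ => hv⟩
    · exact ⟨0, fun h => absurd h hs⟩
  choose f hf using h1
  refine ⟨(List.finite_length_eq Bool (n + 1)).toFinset.image f, fun s hs =>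
    ⟨f s, Finset.mem_image_of_mem f ?_, hf s hs⟩⟩
  rw [Set.Finite.mem_toFinset]
  exact hs

theorem notMem_Ev {U : Set (Crd Λ K)} {X : RName (Fn (Crd Λ K))}
    (hX : ∀ k, Sp U (meets (X k))) {i : Λ} (hi : Crd.c i ∉ U) (p : Fn (Crd Λ K)) :
    p ∈ fnot (Mem (Ev X (sq (.c i))) (JJ Λ K)) := by
  intro q _ hq
  obtain ⟨r, hr, F, m, hF⟩ := mem_Idl_iff.1 (mem_iff.1 hq) q le_rfl
  obtain ⟨B, R, hBR⟩ := exists_union F
  choose V hV using exists_code_string
  obtain ⟨n, hn, q1, h1, h2, h3⟩ := tree B R m r i V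
  obtain ⟨q2, h4, h5, s, hs, h6⟩ := exists_bits hX (n + 1) q1
  have ht : (Crd.c i, n) ∉ q2.dom := by
    intro h
    rcases h5 _ h with h | h
    · exact h2 h
    · exact hi h
  obtain ⟨v, hvV, hv⟩ := hV n s hs
  let q3 := ins (Crd.c i, n) v q2
  have h7 : q3 ≤ q2 := ins_le ht
  refine hF n hn q3 (h7.trans (h4.trans h1)) ⟨?_, fun j hj => ?_⟩
  · refine subset_meets (reg_fex _).1 (mem_fex_of {s} fun t ht' => ⟨?_, ?_⟩)
    · refine subset_meets (down_sq _ _ _) (down_sq _ _ _ q3 ⟨mem_ins.2 (Or.inl rfl), ?_⟩ t ht')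
      rw [ins_val_self]
      exact hv
    · refine mem_fex_of s fun t' ht'' => mem_fex_of (Finset.mem_singleton_self s) fun t'' h8 => ?_
      have hreg : Down (InCyl X s) := down_fall fun i => down_fall fun _ => by
        split_ifs
        · exact (reg_meets _).1
        · exact down_fnot _
      exact hreg q2 h6 t'' (h8.trans (ht''.trans (ht'.trans h7)))
  · rw [fnot_Cp]
    refine TT_mono (hBR j hj).1 (hBR j hj).2 n (down_TT _ _ _ _ (h3 v hvV) q3 ?_)
    exact ins_le_ins h4 ht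

/-- the countable support of a name of a subset of `ω` -/
theorem exists_supp (X : RName (Fn (Crd Λ K))) : ∃ U : Set (Crd Λ K), U.Countable ∧
    ∀ k, Sp U (meets (X k)) := by
  choose U hU hUX using fun k => exists_sp (reg_meets (X k))
  exact ⟨⋃ k, U k, countable_iUnion hU, fun k => (hUX k).mono (subset_iUnion U k)
    (reg_meets _).1⟩

theorem exists_supp2 (D : ℕ → FS → Set (Fn (Crd Λ K))) : ∃ U : Set (Crd Λ K), U.Countable ∧
    ∀ n F, Sp U (meets (D n F)) := by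
  choose U hU hUX using fun k : ℕ × FS => exists_sp (reg_meets (D k.1 k.2))
  exact ⟨⋃ k, U k, countable_iUnion hU, fun n F => (hUX (n, F)).mono (subset_iUnion U (n, F))
    (reg_meets _).1⟩

theorem covLe {Y : Type} (hY : ¬ Countable Y) (f : Y → Λ) (hf : Function.Injective f)
    (p : Fn (Crd Λ K)) : p ∈ CovLe (JJ Λ K) Y := by
  refine mem_fex_of (fun y => sq (.c (f y))) fun q _ => ⟨fun y => omB_sq _ q, fun X => ?_⟩
  obtain ⟨U, hU, hUX⟩ := exists_supp X
  obtain ⟨y, hy⟩ : ∃ y, Crd.c (f y) ∉ U := by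
    by_contra h
    push Not at h
    have h2 : Countable U := hU.to_subtype
    exact hY (Function.Injective.countable (f := fun y => (⟨Crd.c (f y), h y⟩ : U))
      fun y y' h' => hf (by
        have := congrArg Subtype.val h'
        simpa using this))
  exact mem_fex_of y fun r _ => notMem_Ev hUX hy r

theorem not_nonLe {Z : Type} (hΛ : ℵ₀ < #Λ) (hZ : #Z < #Λ) (p : Fn (Crd Λ K)) :
    p ∈ fnot (NonLe (JJ Λ K) Z) := by
  intro q _ hq
  obtain ⟨r, -, X, hX⟩ := mem_fex.1 hq q le_rfl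
  choose U hU hUX using fun z => exists_supp (X z)
  obtain ⟨i, hi⟩ : ∃ i, Crd.c i ∉ ⋃ z, U z := by
    by_contra h
    push Not at h
    have h1 : #Λ ≤ #(⋃ z, U z : Set (Crd Λ K)) :=
      mk_le_of_injective (f := fun i : Λ => (⟨Crd.c i, h i⟩ : (⋃ z, U z : Set (Crd Λ K))))
        fun i i' h' => by
          have := congrArg Subtype.val h'
          simpa using this
    have h2 : #(⋃ z, U z : Set (Crd Λ K)) < #Λ := by
      refine lt_of_le_of_lt (mk_iUnion_le_sum_mk.trans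
        (Cardinal.sum_le_sum _ (fun _ => ℵ₀) fun z => (hU z).le_aleph0)) ?_
      rw [Cardinal.sum_const']
      exact mul_lt_of_lt hΛ.le hZ hΛ
    exact absurd h1 (not_le.2 h2)
  obtain ⟨r1, hr1, h1⟩ := mem_fimp.1 (hX (sq (.c i))) r le_rfl (omB_sq _ r)
  obtain ⟨r2, hr2, z, hz⟩ := mem_fex.1 h1 r1 le_rfl
  exact notMem_Ev (hUX z) (fun h => hi (mem_iUnion.2 ⟨z, h⟩)) r2 r2 le_rfl hz

/-! ### The sets `N*_J(c)` are increasing -/

theorem starSub (g : Gn Λ K) (p : Fn (Crd Λ K)) :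
    p ∈ StarSub (JJ Λ K) g.1.2 (sq (.x g.1.1)) := by
  classical
  intro X
  refine mem_fimp.2 fun q _ hq => ⟨q, le_rfl, ?_⟩
  refine mem_iff.2 (mem_Idl_iff.2 fun q' hq' => ?_)
  obtain ⟨r, hr, F, m, hF⟩ := mem_Idl_iff.1 (mem_iff.1 hq) q' hq'
  obtain ⟨B, R, hBR⟩ := exists_union F
  refine ⟨r, hr, {(insert g B, R + 1)}, m, fun n hn s hs hs' => ?_⟩
  obtain ⟨h1, h2⟩ := hs'
  have h3 := h2 _ (Finset.mem_singleton_self _)
  rw [fnot_Cp] at h3
  obtain ⟨s1, hs1, v, hv1, hv2, hv3⟩ := mem_fex.1 (h3 g (Finset.mem_insert_self _ _)) s le_rfl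
  have hmu : m ≤ uu n v := hn.trans (le_uu n v)
  have hs1r : s1 ≤ r := hs1.trans hs
  -- `X` belongs to the value of `g.1.2` at `uu n v`
  have h4 : ∃ s2 ≤ s1, s2 ∈ InC X g.1.2 (uu n v) := by
    by_contra hcon
    push Not at hcon
    refine hF (uu n v) hmu s1 hs1r ⟨subset_meets (down_fnot _) hcon, fun j hj => ?_⟩
    rw [fnot_Cp]
    exact TT_mono ((hBR j hj).1.trans (Finset.subset_insert _ _)) (hBR j hj).2 _ hv3
  obtain ⟨s2, hs2, h5⟩ := h4
  obtain ⟨s3, hs3, E, hE, hE'⟩ := mem_fex.1 h5 s2 le_rfl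
  obtain ⟨s4, hs4, σ, h6⟩ := mem_fex.1 hE' s3 le_rfl
  obtain ⟨s5, hs5, hσE, h7⟩ := mem_fex.1 h6 s4 le_rfl
  have hs5s1 : s5 ≤ s1 := hs5.trans (hs4.trans (hs3.trans hs2))
  obtain ⟨s6, hs6, E', h8⟩ := mem_fex.1 ((reg_fex _).1 s1 hv2 s5 hs5s1) s5 le_rfl
  obtain ⟨s7, hs7, hE'sub, h9⟩ := mem_fex.1 h8 s6 le_rfl
  have hs75 : s7 ≤ s5 := hs7.trans hs6
  have hEE' : E = E' := isFun_unique (g.2.1 s7).1
    ((reg_meets _).1 s3 hE s7 (hs75.trans (hs5.trans hs4))) h9
  -- so it belongs to the value of the generic sequence at `n`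
  obtain ⟨s8, hs8, u, hu, hsu⟩ := h1 s7 (hs75.trans (hs5s1.trans hs1))
  refine hu s8 hsu (mem_fex_of (ee n v) fun w hw => ⟨?_, ?_⟩)
  · refine subset_meets (down_sq _ _ _) ?_
    have h10 := down_gr _ _ _ s1 hv1 w (hw.trans (hs8.trans (hs75.trans hs5s1)))
    exact ⟨h10.1, by rw [h10.2]⟩
  · refine mem_fex_of σ fun w' hw' => mem_fex_of (hE'sub (hEE' ▸ hσE)) fun w'' hw'' => ?_
    have hreg : Down (InCyl X σ) := down_fall fun i => down_fall fun _ => by
      split_ifs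
      · exact (reg_meets _).1
      · exact down_fnot _
    exact hreg s5 h7 w'' (hw''.trans (hw'.trans (hw.trans (hs8.trans hs75))))

theorem starSub_tt {D : ℕ → FS → Set (Fn (Crd Λ K))} {r : Fn (Crd Λ K)}
    {c : ℕ → FS → Set (Fn (Crd Λ K))} (h : ∀ p, p ∈ StarSub (JJ Λ K) (tt r D) c)
    (p : Fn (Crd Λ K)) (hp : p ≤ r) : p ∈ StarSub (JJ Λ K) D c := by
  intro X
  refine mem_fimp.2 fun q hq hq' => ?_
  refine mem_fimp.1 (h q X) q le_rfl (mem_iff.2 ?_)
  refine Idl_mono (fun s hs n hn => ?_) (mem_iff.1 hq')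
  refine (reg_meets _).2 s fun t ht => ?_
  obtain ⟨t', ht', u, hu, htu⟩ := hn t ht
  refine ⟨t', ht', subset_meets (down_fnot _) fun w hw hw' => hu w (hw.trans htu) ?_⟩
  refine mem_fex.2 fun w1 hw1 => ?_
  obtain ⟨w2, hw2, F, hF, hF'⟩ := mem_fex.1 hw' w1 hw1
  refine ⟨w2, hw2, F, (meets_tt ?_ n F).2 hF, hF'⟩
  exact hw2.trans (hw1.trans (hw.trans (ht'.trans (ht.trans (hs.trans (hq.trans hp))))))

theorem exists_stage (hreg : ∀ T : Set K, #T < #K → ∃ γ, ∀ β ∈ T, β < γ)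
    {U : Set (Crd Λ K)} (hU : #U < #K) : ∃ γ : K, U ⊆ St γ := by
  obtain ⟨γ, hγ⟩ := hreg {β | Crd.x β ∈ U} (by
    refine lt_of_le_of_lt (mk_le_of_injective (f := fun β : {β | Crd.x β ∈ U} =>
      (⟨Crd.x β.1, β.2⟩ : U)) fun β β' h => ?_) hU
    have := congrArg Subtype.val h
    simp only [Crd.x.injEq] at this
    exact Subtype.ext this)
  refine ⟨γ, fun c hc β hβ hcx => ?_⟩
  subst hcx
  exact absurd (hγ β hc) (not_lt.2 hβ)

theorem not_addStarLe (hK : ℵ₀ < #K) (hreg : ∀ T : Set K, #T < #K → ∃ γ, ∀ β ∈ T, β < γ)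
    {Y : Type} (hY : #Y < #K) (p : Fn (Crd Λ K)) : p ∈ fnot (AddStarLe (JJ Λ K) Y) := by
  intro p' _ hp'
  obtain ⟨r, -, D, hD1, hD2⟩ := mem_fex.1 hp' p' le_rfl
  choose U hU hUD using fun y => exists_supp2 (tt r (D y))
  obtain ⟨γ, hγ⟩ := exists_stage (U := ⋃ y, U y) hreg (by
    refine lt_of_le_of_lt (mk_iUnion_le_sum_mk.trans
      (Cardinal.sum_le_sum _ (fun _ => ℵ₀) fun z => (hU z).le_aleph0)) ?_
    rw [Cardinal.sum_const']
    exact mul_lt_of_lt hK.le hY hK)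
  obtain ⟨r1, hr1, h1⟩ := mem_fimp.1 (hD2 (sq (.x γ))) r le_rfl (omB_sq _ r)
  obtain ⟨r2, hr2, y, hy⟩ := mem_fex.1 h1 r1 le_rfl
  let g : Gn Λ K := ⟨(γ, tt r (D y)), fun p => omB_tt (hD1 y) p, fun n F =>
    (hUD y n F).mono ((subset_iUnion U y).trans hγ) (reg_meets _).1⟩
  exact hy r2 le_rfl (starSub_tt (starSub g) r2 (hr2.trans hr1))

theorem cofStarLe (hK : ℵ₀ < #K) (hreg : ∀ T : Set K, #T < #K → ∃ γ, ∀ β ∈ T, β < γ)
    {Z : Type} (e : Z ≃ K) (p : Fn (Crd Λ K)) : p ∈ CofStarLe (JJ Λ K) Z := by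
  refine mem_fex_of (fun z => sq (.x (e z))) fun q _ => ⟨fun z => omB_sq _ q, fun c => ?_⟩
  refine mem_fimp.2 fun r _ hr => ⟨r, le_rfl, ?_⟩
  obtain ⟨U, hU, hUD⟩ := exists_supp2 (tt r c)
  obtain ⟨γ, hγ⟩ := exists_stage (U := U) hreg (hU.le_aleph0.trans_lt hK)
  let g : Gn Λ K := ⟨(γ, tt r c), fun p => omB_tt hr p, fun n F =>
    (hUD n F).mono hγ (reg_meets _).1⟩
  refine mem_fex_of (e.symm γ) fun s hs => ?_
  show s ∈ StarSub (JJ Λ K) c (sq (.x (e (e.symm γ))))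
  rw [Equiv.apply_symm_apply]
  exact starSub_tt (starSub g) s hs

/-! ### The ideal is not meagre -/

/-- a constant sequence of nonempty clopen sets -/
def d0 (n : ℕ) (F : FS) : Set (Fn (Crd Λ K)) := {_p | F = {List.replicate n false}}

theorem meets_d0 {n : ℕ} {F : FS} {p : Fn (Crd Λ K)} : p ∈ meets (d0 n F) ↔
    F = {List.replicate n false} := by
  constructor
  · intro h
    obtain ⟨_, _, _, h, _⟩ := h p le_rfl
    exact h
  · intro h q _
    exact ⟨q, le_rfl, q, h, le_rfl⟩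

theorem omB_d0 (p : Fn (Crd Λ K)) : p ∈ OmB (d0 (Λ := Λ) (K := K)) := by
  classical
  refine ⟨⟨fun n => mem_fex_of {List.replicate n false} fun q _ => meets_d0.2 rfl,
    fun n F F' hne q _ hq => hne ((meets_d0.1 hq.1).trans (meets_d0.1 hq.2).symm)⟩,
    fun j => mem_fex_of j fun q _ T hT r _ hr => ?_⟩
  have h1 : (⋃ t ∈ T, KK t.2) ⊆ Cyl (List.replicate j false) := by
    refine iUnion₂_subset fun t ht => ?_
    rw [meets_d0.1 (hr t ht)]
    have h2 := hT.1 t ht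
    intro x hx
    have hx' : x ∈ Cyl (List.replicate t.1 false) := by
      simpa [KK] using hx
    intro i hi
    rw [List.length_replicate] at hi
    have h3 := hx' i (by rw [List.length_replicate]; omega)
    rw [h3]
    simp only [List.getD_eq_getElem?_getD]
    rw [List.getElem?_replicate, List.getElem?_replicate, if_pos (by omega), if_pos hi]
  have h2 := hT.2.trans_le (measure_mono h1)
  rw [lam_cyl, List.length_replicate] at h2
  exact absurd h2 (lt_irrefl _)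

theorem exists_empty (n : ℕ) : ∃ v, ee n v = ∅ := by
  obtain ⟨v, -, hv⟩ := exists_code (n := n) (u := n) (E := ∅) le_rfl (by
    rw [KK_empty, measure_empty]
    exact bot_le)
  exact ⟨v, hv⟩

theorem nonMg (hK : ℵ₀ < #K) (hreg : ∀ T : Set K, #T < #K → ∃ γ, ∀ β ∈ T, β < γ)
    (p : Fn (Crd Λ K)) : p ∈ NonMg (JJ Λ K) := by
  classical
  intro f
  refine mem_fimp.2 fun q _ hf => ⟨q, le_rfl, ?_⟩
  choose U hU hUf using fun nk : ℕ × ℕ => exists_sp (reg_meets (tot f nk.1 nk.2))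
  obtain ⟨γ, hγ⟩ := exists_stage (U := ⋃ k, U k) hreg
    ((countable_iUnion hU).le_aleph0.trans_lt hK)
  have hSp : ∀ k l, Sp (St γ) (meets (tot f k l)) := fun k l =>
    (hUf (k, l)).mono ((subset_iUnion U (k, l)).trans hγ) (reg_meets _).1
  let g : Gn Λ K := ⟨(γ, d0), fun p => omB_d0 p, fun n F r hr => meets_d0.2 (meets_d0.1 hr)⟩
  refine mem_fex_of (Cp ({g}, 1)) fun q1 hq1 => ⟨mem_gen (G := Cp) ({g}, 1) q1, fun m => ?_⟩
  refine mem_fex.2 fun q2 hq2 => ?_
  obtain ⟨N, hN⟩ := exists_fresh q2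
  let k := max m N
  obtain ⟨r, hr, l, hl⟩ := isFun_total (isFun_tot f q2) k
  obtain ⟨q3, h31, h32, h33⟩ := exists_glue (agree_of_le hr (le_res (St γ) r))
  have h34 : q3 ∈ meets (tot f k l) := (reg_meets _).1 _ (hSp k l r hl) q3 h32
  have hfr : ∀ n, k ≤ n → (Crd.x γ, n) ∉ q3.dom := by
    intro n hn h
    rcases h33 _ h with h | h
    · have h1 := hN _ h
      have h2 : N ≤ n := (le_max_right m N).trans hn
      exact absurd h1 (not_lt.2 h2)
    · exact (mem_res.1 h).2 γ le_rfl rfl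
  choose v hv using exists_empty
  let q4 : Fn (Crd Λ K) := ⟨q3.dom ∪ (Finset.Icc k l).image (fun n => (Crd.x γ, n)),
    fun t => if t ∈ q3.dom then q3.val t else v t.2⟩
  have h43 : q4 ≤ q3 := ⟨Finset.subset_union_left, fun t ht => if_pos ht⟩
  refine ⟨q4, h43.trans h31, k, mem_fex_of (le_max_left m N) fun q5 hq5 l' => ?_⟩
  refine mem_fimp.2 fun q6 hq6 hl' => ⟨q6, le_rfl, fun n hkn hnl => ?_⟩
  have hq6q : q6 ≤ q := hq6.trans (hq5.trans (h43.trans (h31.trans (hq2.trans hq1))))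
  have hll : l' = l := isFun_unique (isFun_tot f q6)
    ((meets_tot ((reg_isFun f).1 q hf q6 hq6q) k l').2 hl')
    ((reg_meets _).1 q3 h34 q6 (hq6.trans (hq5.trans h43)))
  subst hll
  have hmem : (Crd.x γ, n) ∈ q4.dom := Finset.mem_union_right _
    (Finset.mem_image_of_mem (fun n => (Crd.x γ, n)) (Finset.mem_Icc.2 ⟨hkn, hnl⟩))
  have hval : q4.val (Crd.x γ, n) = v n := if_neg (hfr n hkn)
  refine subset_meets (down_fnot _) fun w hw hwT => ?_
  obtain ⟨w1, hw1, v', hv1, hv2, -⟩ := mem_fex.1 (hwT g (Finset.mem_singleton_self g)) w le_rfl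
  have hw14 : w1 ≤ q4 := hw1.trans (hw.trans (hq6.trans hq5))
  have hvv : v' = v n := by
    have h1 : w1.val (Crd.x γ, n) = v' := hv1.2
    rw [← h1, hw14.2 _ hmem, hval]
  subst hvv
  rw [hv] at hv2
  obtain ⟨w2, hw2, F, hF⟩ := mem_fex.1 hv2 w1 le_rfl
  obtain ⟨w3, -, hFe, hF'⟩ := mem_fex.1 hF w2 le_rfl
  have h1 : F = {List.replicate (uu n (v n)) false} := meets_d0.1 hF'
  rw [h1] at hFe
  exact absurd (hFe (Finset.mem_singleton_self _)) (Finset.notMem_empty _)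

/-- The Cohen forcing forces the sentence `Model`. -/
theorem model (hK : ℵ₀ < #K) (hreg : ∀ T : Set K, #T < #K → ∃ γ, ∀ β ∈ T, β < γ)
    {Y : Type} (hY0 : ℵ₀ < #Y) (hY : #Y < #K) (hΛ : #K < #Λ) (p : Fn (Crd Λ K)) :
    p ∈ Model (Fn (Crd Λ K)) Y K := by
  obtain ⟨f⟩ : Nonempty (Y ↪ Λ) := (hY.trans hΛ).le
  have hΛ0 : Nonempty Λ := mk_ne_zero_iff.1 (zero_le.trans_lt hΛ).ne'
  refine mem_fex_of (JJ Λ K) fun q _ => ⟨isIdeal_JJ q, nonMg hK hreg q,
    ⟨covLe (fun h => ?_) f f.injective q, not_addStarLe hK hreg hY q⟩,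
    ⟨cofStarLe hK hreg (Equiv.refl K) q, not_nonLe (hK.trans hΛ) hΛ q⟩⟩
  exact absurd (mk_le_aleph0_iff.2 h) (not_le.2 hY0)

end Pool.Agent.R592.Nj
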