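import Pool.Agent.R592.Pk.Idl
import Pool.Agent.R592.Ent.Ground

/-!
# Sentences about the ideals `N_J` and `N*_J`
-/

set_option autoImplicit false
set_option linter.unusedSectionVars false

namespace Pool.Agent.R592.Nj

open Cardinal MeasureTheory Set Filter Topology
open Pool.Agent.TH773.PSet Pool.Agent.R593.Rnd Pool.Agent.R592.Ent Pool.Agent.R592.Sl
open Pool.Agent.R592.Pk
open scoped ENNReal

universe u v w

/-- A finite set of strings codes a clopen subset of `2 ^ ω`. -/
abbrev FS : Type := Finset (List Bool)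

/-- the product measure on `2 ^ ω` -/
noncomputable def lam : Measure (ℕ → Bool) := Measure.infinitePi fun _ => coin

instance : IsProbabilityMeasure lam := by
  unfold lam
  infer_instance

/-- the clopen set with the code `F` -/
def KK (F : FS) : Set (ℕ → Bool) := ⋃ s ∈ F, Cyl s

theorem KK_mono {F F' : FS} (h : F ⊆ F') : KK F ⊆ KK F' :=
  biUnion_subset_biUnion_left h

theorem KK_empty : KK ∅ = ∅ := by simp [KK]

theorem lam_cyl (s : List Bool) : lam (Cyl s) = (2⁻¹ : ℝ≥0∞) ^ s.length := by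
  have h1 : Cyl s = Set.pi (Finset.range s.length : Finset ℕ) fun i => {s.getD i false} := by
    ext x
    simp [Cyl]
  have h2 : ∀ b : Bool, coin {b} = (2⁻¹ : ℝ≥0∞) := by
    intro b
    cases b with
    | true => exact coin_true
    | false =>
      unfold coin
      simp [Measure.smul_apply, Measure.add_apply]
  rw [h1, lam, Measure.infinitePi_pi _ fun _ _ => measurableSet_singleton _]
  simp only [h2, Finset.prod_const, Finset.card_range]

section Sentences

variable {P : Type u} [Preorder P]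

/-- The measure of the union of finitely many `c n` with `n` at least `m` is at most `2 ^ (- j)`. -/
def Sm (c : ℕ → FS → Set P) (j m : ℕ) : Set P :=
  fall fun T : Finset (ℕ × FS) =>
    fall fun _ : (∀ t ∈ T, m ≤ t.1) ∧ (2⁻¹ : ℝ≥0∞) ^ j < lam (⋃ t ∈ T, KK t.2) =>
      fnot (fall fun t : ℕ × FS => fall fun _ : t ∈ T => meets (c t.1 t.2))

/-- `c` is a sequence of clopen sets (given by their codes) such that the set of the points which
belong to infinitely many of them is null. -/
def OmB (c : ℕ → FS → Set P) : Set P :=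
  fand (IsFun c) (fall fun j : ℕ => fex fun m : ℕ => Sm c j m)

/-- the point `X` belongs to `c n` -/
def InC (X : RName P) (c : ℕ → FS → Set P) (n : ℕ) : Set P :=
  fex fun F : FS => fand (meets (c n F)) (fex fun s : List Bool => fex fun _ : s ∈ F => InCyl X s)

/-- `{n : X ∈ c n}` -/
def Ev (X : RName P) (c : ℕ → FS → Set P) : RName P := fun n => InC X c n

/-- `{n : X ∉ c n}` -/
def Od (X : RName P) (c : ℕ → FS → Set P) : RName P := fun n => fnot (InC X c n)

/-- `J` is not meagre, in the form of Talagrand's theorem: for each function `f` there is a member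
of `J` which includes infinitely many of the intervals from `k` to `f k`. -/
def NonMg (J : FName P) : Set P :=
  fall fun f : ℕ → ℕ → Set P => fimp (IsFun f) (fex fun A : RName P => fand (Mem A J)
    (fall fun m : ℕ => fex fun k : ℕ => fex fun _ : m ≤ k => fall fun l : ℕ =>
      fimp (meets (f k l))
        (fall fun n : ℕ => fall fun _ : k ≤ n => fall fun _ : n ≤ l => meets (A n))))

/-- `2 ^ ω` is covered by a family of sets `N_J(c)` indexed by `Y`. -/
def CovLe (J : FName P) (Y : Type v) : Set P :=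
  fex fun D : Y → ℕ → FS → Set P => fand (fall fun y => OmB (D y))
    (fall fun X : RName P => fex fun y => fnot (Mem (Ev X (D y)) J))

/-- There is a set of points indexed by `Y` which is not included in a set `N_J(c)`. -/
def NonLe (J : FName P) (Y : Type v) : Set P :=
  fex fun X : Y → RName P => fall fun c : ℕ → FS → Set P =>
    fimp (OmB c) (fex fun y => Mem (Ev (X y) c) J)

/-- `N*_J(c)` is included in `N*_J(d)`. -/
def StarSub (J : FName P) (c d : ℕ → FS → Set P) : Set P :=
  fall fun X : RName P => fimp (Mem (Od X c) J) (Mem (Od X d) J)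

/-- There is a family of sets `N*_J(c)` indexed by `Y` whose union is not included in a set
`N*_J(c)`. -/
def AddStarLe (J : FName P) (Y : Type v) : Set P :=
  fex fun D : Y → ℕ → FS → Set P => fand (fall fun y => OmB (D y))
    (fall fun c : ℕ → FS → Set P => fimp (OmB c) (fex fun y => fnot (StarSub J (D y) c)))

/-- There is a family of sets `N*_J(c)` indexed by `Y` such that each set `N*_J(c)` is included in
a member of the family. -/
def CofStarLe (J : FName P) (Y : Type v) : Set P :=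
  fex fun D : Y → ℕ → FS → Set P => fand (fall fun y => OmB (D y))
    (fall fun c : ℕ → FS → Set P => fimp (OmB c) (fex fun y => StarSub J c (D y)))

variable (P) in
/-- There is a non-meagre ideal `J` on `ω` such that
`cov (N_J) ≤ |Y| < add (N*_J)` and `cof (N*_J) ≤ |Z| < non (N_J)`. -/
def Model (Y Z : Type v) : Set P :=
  fex fun J : FName P => fand (IsIdeal J) (fand (NonMg J)
    (fand (fand (CovLe J Y) (fnot (AddStarLe J Y))) (fand (CofStarLe J Z) (fnot (NonLe J Z)))))

end Sentences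

/-! ### Supports of sentences -/

section Sp

variable {C : Type}

theorem Sp.fall {S : Set C} {ι : Sort v} {φ : ι → Set (Fn C)} (h : ∀ i, Sp S (φ i)) :
    Sp S (fall φ) := fun r hr i => h i r (hr i)

theorem Sp.fnot {S : Set C} {φ : Set (Fn C)} (hd : Down φ) (h : Sp S φ) : Sp S (fnot φ) := by
  intro r hr t ht htφ
  have h1 : Agree r (res S t) := by
    intro u hu hu'
    have h2 : u ∈ (res S r).dom := mem_res.2 ⟨hu, (mem_res.1 hu').2⟩
    exact (ht.2 u h2).symm
  obtain ⟨c, hc, hc', -⟩ := exists_glue h1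
  exact hr c hc (hd _ (h t htφ) c hc')

theorem sp_Sm {S : Set C} {c : ℕ → FS → Set (Fn C)} (h : ∀ n F, Sp S (meets (c n F))) (j m : ℕ) :
    Sp S (Sm c j m) :=
  Sp.fall fun _ => Sp.fall fun _ => Sp.fnot (down_fall fun _ => down_fall fun _ => (reg_meets _).1)
    (Sp.fall fun _ => Sp.fall fun _ => h _ _)

end Sp

section Gen

variable {P : Type u} [Preorder P]

theorem reg_Sm (c : ℕ → FS → Set P) (j m : ℕ) : Reg (Sm c j m) :=
  reg_fall fun _ => reg_fall fun _ => reg_fnot (down_fall fun _ => down_fall fun _ =>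
    (reg_meets _).1)

theorem reg_OmB (c : ℕ → FS → Set P) : Reg (OmB c) :=
  reg_fand (reg_isFun c) (reg_fall fun _ => reg_fex _)

theorem Sm_mono {c : ℕ → FS → Set P} {j m m' : ℕ} (h : m ≤ m') : Sm c j m ⊆ Sm c j m' :=
  fun _ hp T hT => hp T ⟨fun t ht => h.trans (hT.1 t ht), hT.2⟩

theorem lam_le_of_Sm {c : ℕ → FS → Set P} {j m : ℕ} {p : P} (hp : p ∈ Sm c j m) {n : ℕ}
    (hn : m ≤ n) {F : FS} (hF : p ∈ meets (c n F)) : lam (KK F) ≤ (2⁻¹ : ℝ≥0∞) ^ j := by
  by_contra hlt
  rw [not_le] at hlt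
  refine hp {(n, F)} ⟨fun t ht => ?_, ?_⟩ p le_rfl fun t ht => ?_
  · rw [Finset.mem_singleton.1 ht]
    exact hn
  · simpa using hlt
  · obtain rfl := Finset.mem_singleton.1 ht
    exact hF

/-- The sequence of codes is `D` if `p` is in the generic filter, and it is constant `∅`
otherwise. -/
def tt (p : P) (D : ℕ → FS → Set P) (n : ℕ) (F : FS) : Set P :=
  {q | (q ≤ p ∧ q ∈ meets (D n F)) ∨ ((∀ r ≤ q, ¬ r ≤ p) ∧ F = ∅)}

theorem down_tt (p : P) (D : ℕ → FS → Set P) (n : ℕ) (F : FS) : Down (tt p D n F) := by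
  rintro q (⟨h1, h2⟩ | ⟨h1, h2⟩) r hr
  · exact Or.inl ⟨hr.trans h1, (reg_meets _).1 q h2 r hr⟩
  · exact Or.inr ⟨fun s hs => h1 s (hs.trans hr), h2⟩

theorem meets_tt {p : P} {D : ℕ → FS → Set P} {q : P} (hq : q ≤ p) (n : ℕ) (F : FS) :
    q ∈ meets (tt p D n F) ↔ q ∈ meets (D n F) := by
  constructor
  · intro h
    refine (reg_meets _).2 q fun r hr => ?_
    obtain ⟨s, hs, t, ht, hst⟩ := h r hr
    rcases ht with ⟨-, h2⟩ | ⟨h1, -⟩
    · exact ⟨s, hs, (reg_meets _).1 t h2 s hst⟩
    · exact absurd (hs.trans (hr.trans hq)) (h1 s hst)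
  · intro h
    exact subset_meets (down_tt p D n F) (Or.inl ⟨hq, h⟩)

theorem meets_tt_of {p : P} {D : ℕ → FS → Set P} {q : P} (hq : ∀ r ≤ q, ¬ r ≤ p) {n : ℕ} {F : FS}
    (h : q ∈ meets (tt p D n F)) : F = ∅ := by
  obtain ⟨s, hs, t, ht, hst⟩ := h q le_rfl
  rcases ht with ⟨h1, -⟩ | ⟨-, h2⟩
  · exact absurd (hst.trans h1) (hq s hs)
  · exact h2

theorem omB_tt {p : P} {D : ℕ → FS → Set P} (hp : p ∈ OmB D) (q : P) : q ∈ OmB (tt p D) := by
  refine ⟨⟨fun n => mem_fex.2 fun q _ => ?_, fun n F F' hne q _ hq => ?_⟩,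
    fun j => mem_fex.2 fun q _ => ?_⟩
  · by_cases h : ∃ r ≤ q, r ≤ p
    · obtain ⟨r, hr, hr'⟩ := h
      obtain ⟨s, hs, F, hF⟩ := isFun_total ((reg_isFun D).1 p hp.1 r hr') n
      exact ⟨s, hs.trans hr, F, (meets_tt (hs.trans hr') n F).2 hF⟩
    · push Not at h
      exact ⟨q, le_rfl, ∅, subset_meets (down_tt p D n ∅) (Or.inr ⟨h, rfl⟩)⟩
  · obtain ⟨h1, h2⟩ := hq
    by_cases h : ∃ r ≤ q, r ≤ p
    · obtain ⟨r, hr, hr'⟩ := h
      exact hne (isFun_unique ((reg_isFun D).1 p hp.1 r hr')
        ((meets_tt hr' n F).1 ((reg_meets _).1 q h1 r hr))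
        ((meets_tt hr' n F').1 ((reg_meets _).1 q h2 r hr)))
    · push Not at h
      exact hne ((meets_tt_of h h1).trans (meets_tt_of h h2).symm)
  · by_cases h : ∃ r ≤ q, r ≤ p
    · obtain ⟨r, hr, hr'⟩ := h
      obtain ⟨s, hs, m, hm⟩ := mem_fex.1 (hp.2 j) r hr'
      refine ⟨s, hs.trans hr, m, fun T hT t ht ht' => hm T hT t ht fun u hu => ?_⟩
      exact (meets_tt (ht.trans (hs.trans hr')) _ _).1 (ht' u hu)
    · push Not at h
      refine ⟨q, le_rfl, 0, fun T hT t ht ht' => ?_⟩
      have h1 : ∀ u ∈ T, u.2 = ∅ := fun u hu =>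
        meets_tt_of (fun r hr => h r (hr.trans ht)) (ht' u hu)
      have h2 : (⋃ u ∈ T, KK u.2) = ∅ := by
        simp only [iUnion_eq_empty]
        intro u hu
        rw [h1 u hu, KK_empty]
      have h3 := hT.2
      rw [h2, measure_empty] at h3
      exact absurd h3 (not_lt.2 bot_le)

end Gen

end Pool.Agent.R592.Nj
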