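import Pool.Agent.R592.Nj.Sent

/-!
# The construction of trees of good nodes
-/

set_option autoImplicit false
set_option linter.unusedSectionVars false

namespace Pool.Agent.R592.Nj

open Cardinal MeasureTheory Set Filter Topology
open Pool.Agent.TH773.PSet Pool.Agent.R593.Rnd Pool.Agent.R592.Ent Pool.Agent.R592.Sl
open Pool.Agent.R592.Pk
open scoped ENNReal

/-- The names of the generic functions: `c i` is a sequence of clopen sets, and `x γ` is a
function from `ω` to `ω` together with a sequence of clopen sets, added at the stage `γ`. -/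
inductive Crd (Λ K : Type) : Type
  | c (i : Λ) : Crd Λ K
  | x (γ : K) : Crd Λ K

variable {Λ K : Type} [LinearOrder K]

/-- everything added before the stage `γ` -/
def St (γ : K) : Set (Crd Λ K) := {c | ∀ δ, γ ≤ δ → c ≠ .x δ}

/-! ### Coding -/

theorem exists_dec : ∃ d : ℕ → ℕ × FS, Function.Surjective d := exists_surjective_nat _

/-- a decoding function -/
noncomputable def dec : ℕ → ℕ × FS := exists_dec.choose

theorem dec_surj : Function.Surjective dec := exists_dec.choose_spec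

/-- the natural number coded by `v` at `n`; it is at least `n` -/
noncomputable def uu (n v : ℕ) : ℕ := n + (dec v).1

open Classical in
/-- the code of a clopen set coded by `v` at `n`; its measure is at most `2 ^ (- (n + 1))` -/
noncomputable def ee (n v : ℕ) : FS :=
  if lam (KK (dec v).2) ≤ (2⁻¹ : ℝ≥0∞) ^ (n + 1) then (dec v).2 else ∅

theorem exists_code {n u : ℕ} {E : FS} (hu : n ≤ u) (hE : lam (KK E) ≤ (2⁻¹ : ℝ≥0∞) ^ (n + 1)) :
    ∃ v, uu n v = u ∧ ee n v = E := by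
  obtain ⟨v, hv⟩ := dec_surj (u - n, E)
  refine ⟨v, ?_, ?_⟩
  · rw [uu, hv]
    exact Nat.add_sub_cancel' hu
  · rw [ee, hv]
    exact if_pos hE

theorem le_uu (n v : ℕ) : n ≤ uu n v := Nat.le_add_right _ _

theorem lam_ee (n v : ℕ) : lam (KK (ee n v)) ≤ (2⁻¹ : ℝ≥0∞) ^ (n + 1) := by
  unfold ee
  split_ifs with h
  · exact h
  · rw [KK_empty, measure_empty]
    exact bot_le

/-! ### Scenarios -/

/-- the condition which says in addition that the value at `t` is `s` -/
noncomputable def ins {C : Type} (t : C × ℕ) (s : ℕ) (q : Fn C) : Fn C := by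
  classical
  exact ⟨insert t q.dom, fun u => if u = t then s else q.val u⟩

section Ins

variable {C : Type} {t : C × ℕ} {s : ℕ} {q q' : Fn C}

theorem mem_ins {u : C × ℕ} : u ∈ (ins t s q).dom ↔ u = t ∨ u ∈ q.dom := by
  classical
  exact Finset.mem_insert

theorem ins_val_self : (ins t s q).val t = s := by
  classical
  exact if_pos rfl

theorem ins_val {u : C × ℕ} (h : u ≠ t) : (ins t s q).val u = q.val u := by
  classical
  exact if_neg h

theorem ins_le (h : t ∉ q.dom) : ins t s q ≤ q :=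
  ⟨fun _ hu => mem_ins.2 (Or.inr hu), fun u hu => ins_val fun h' => h (h' ▸ hu)⟩

theorem ins_le_ins (h : q' ≤ q) (ht : t ∉ q'.dom) : ins t s q' ≤ ins t s q := by
  refine ⟨fun u hu => ?_, fun u hu => ?_⟩
  · rcases mem_ins.1 hu with h1 | h1
    · exact mem_ins.2 (Or.inl h1)
    · exact mem_ins.2 (Or.inr (h.1 h1))
  · rcases mem_ins.1 hu with h1 | h1
    · rw [h1, ins_val_self, ins_val_self]
    · have h2 : u ≠ t := fun h' => ht (h' ▸ h.1 h1)
      rw [ins_val h2, ins_val h2]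
      exact h.2 u h1

theorem dec1 {U : Set C} {φ : Set (Fn C)} (hφ : Down φ) (hU : Sp U φ) (ht : t ∉ q.dom)
    {r : Fn C} (hr : r ≤ ins t s q) (hrφ : r ∈ φ) :
    ∃ q' ≤ q, t ∉ q'.dom ∧ (∀ u ∈ q'.dom, u ∈ q.dom ∨ u.1 ∈ U) ∧ ins t s q' ∈ φ := by
  classical
  let q' : Fn C := ⟨q.dom ∪ (res U r).dom.erase t, fun u => if u ∈ q.dom then q.val u else r.val u⟩
  have htq' : t ∉ q'.dom := by
    intro h
    rcases Finset.mem_union.1 h with h | h
    · exact ht h
    · exact absurd h (Finset.notMem_erase _ _)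
  refine ⟨q', ⟨Finset.subset_union_left, fun u hu => if_pos hu⟩, htq', fun u hu => ?_,
    hφ _ (hU r hrφ) _ ⟨fun u hu => ?_, fun u hu => ?_⟩⟩
  · rcases Finset.mem_union.1 hu with h | h
    · exact Or.inl h
    · exact Or.inr (mem_res.1 (Finset.mem_of_mem_erase h)).2
  · by_cases h : u = t
    · exact mem_ins.2 (Or.inl h)
    · exact mem_ins.2 (Or.inr (Finset.mem_union_right _ (Finset.mem_erase.2 ⟨h, hu⟩)))
  · show (ins t s q').val u = r.val u
    by_cases h : u = t
    · rw [h, ins_val_self]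
      have h1 := hr.2 t (mem_ins.2 (Or.inl rfl))
      rw [ins_val_self] at h1
      exact h1.symm
    · rw [ins_val h]
      show (if u ∈ q.dom then q.val u else r.val u) = r.val u
      split_ifs with h1
      · have h2 := hr.2 u (mem_ins.2 (Or.inr h1))
        rw [ins_val h] at h2
        exact h2.symm
      · rfl

theorem decL {U : Set C} {ι β : Type} (sc : ι → ℕ) (φ : ι → β → Set (Fn C))
    (hφ : ∀ a b, Down (φ a b)) (hU : ∀ a b, Sp U (φ a b)) (L : Finset ι)
    (hL : ∀ a ∈ L, ∀ r, ∃ r' ≤ r, ∃ b, r' ∈ φ a b) (ht : t ∉ q.dom) :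
    ∃ q' ≤ q, t ∉ q'.dom ∧ (∀ u ∈ q'.dom, u ∈ q.dom ∨ u.1 ∈ U) ∧
      ∀ a ∈ L, ∃ b, ins t (sc a) q' ∈ φ a b := by
  classical
  induction L using Finset.induction_on with
  | empty => exact ⟨q, le_rfl, ht, fun u hu => Or.inl hu, fun a ha => by simp at ha⟩
  | insert a L _ ih =>
    obtain ⟨q1, h1, h2, h3, h4⟩ := ih fun a' ha' => hL a' (Finset.mem_insert_of_mem ha')
    obtain ⟨r, hr, b, hb⟩ := hL a (Finset.mem_insert_self _ _) (ins t (sc a) q1)
    obtain ⟨q2, h5, h6, h7, h8⟩ := dec1 (hφ a b) (hU a b) h2 hr hb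
    refine ⟨q2, h5.trans h1, h6, fun u hu => ?_, fun a' ha' => ?_⟩
    · rcases h7 u hu with h | h
      · exact h3 u h
      · exact Or.inr h
    · rcases Finset.mem_insert.1 ha' with rfl | ha'
      · exact ⟨b, h8⟩
      · obtain ⟨b', hb'⟩ := h4 a' ha'
        exact ⟨b', hφ a' b' _ hb' _ (ins_le_ins h5 h6)⟩

end Ins

/-! ### Good nodes -/

/-- a stage `γ` together with a name of a sequence of clopen sets which depends only on what is
added before the stage `γ` -/
def Gn (Λ K : Type) [LinearOrder K] : Type :=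
  {g : K × (ℕ → FS → Set (Fn (Crd Λ K))) // (∀ p, p ∈ OmB g.2) ∧
    ∀ n F, Sp (St g.1) (meets (g.2 n F))}

/-- the code of `d k` is included in `E` -/
def Sbs (d : ℕ → FS → Set (Fn (Crd Λ K))) (k : ℕ) (E : FS) : Set (Fn (Crd Λ K)) :=
  fex fun F : FS => fex fun _ : F ⊆ E => meets (d k F)

/-- The node `n` is good up to the depth `r`. -/
def TT (B : Finset (Gn Λ K)) : ℕ → ℕ → Set (Fn (Crd Λ K))
  | 0, _ => Set.univ
  | r + 1, n => fall fun g : Gn Λ K => fall fun _ : g ∈ B => fex fun v : ℕ =>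
      fand (gr (.x g.1.1) n v) (fand (Sbs g.1.2 (uu n v) (ee n v)) (TT B r (uu n v)))

theorem down_TT (B : Finset (Gn Λ K)) (r n : ℕ) : Down (TT B r n) := by
  cases r with
  | zero => exact fun _ _ _ _ => trivial
  | succ r => exact down_fall fun _ => down_fall fun _ => (reg_fex _).1

/-- the depth of a node -/
def dep (R m : ℕ) : ℕ := m % (R + 1)

theorem exists_dep {R d : ℕ} (hd : d ≤ R) (N : ℕ) : ∃ m, N ≤ m ∧ dep R m = d := by
  refine ⟨d + (R + 1) * N, ?_, ?_⟩
  · nlinarith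
  · rw [dep, Nat.add_mul_mod_self_left]
    exact Nat.mod_eq_of_lt (by omega)

theorem dep_le (R m : ℕ) : dep R m ≤ R := Nat.lt_succ_iff.1 (Nat.mod_lt _ (Nat.succ_pos R))

section Build

variable (B : Finset (Gn Λ K)) (V : Finset ℕ) (R : ℕ) (t : Crd Λ K × ℕ)

/-- the node `m` has good successors in `W` for the stages in `Δ` -/
def Cl (q : Fn (Crd Λ K)) (W : Finset ℕ) (Δ : Finset K) (m : ℕ) : Prop :=
  dep R m ≠ 0 → ∀ g ∈ B, g.1.1 ∈ Δ → ∃ v, q ∈ gr (.x g.1.1) m v ∧
    (∀ s ∈ V, ins t s q ∈ Sbs g.1.2 (uu m v) (ee m v)) ∧ uu m v ∈ W ∧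
    dep R (uu m v) + 1 = dep R m

variable {B V R t}

theorem Cl.mono {q q' : Fn (Crd Λ K)} {W W' : Finset ℕ} {Δ Δ' : Finset K} {m : ℕ} (hq : q' ≤ q)
    (ht : t ∉ q'.dom) (hW : W ⊆ W') (hΔ : Δ' ⊆ Δ) (h : Cl B V R t q W Δ m) :
    Cl B V R t q' W' Δ' m := by
  intro hm g hg hgΔ
  obtain ⟨v, h1, h2, h3, h4⟩ := h hm g hg (hΔ hgΔ)
  exact ⟨v, down_gr _ _ _ q h1 q' hq, fun s hs => (reg_fex _).1 _ (h2 s hs) _ (ins_le_ins hq ht),
    hW h3, h4⟩

theorem Cl.union {q : Fn (Crd Λ K)} {W : Finset ℕ} {Δ : Finset K} {γ : K} {m : ℕ}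
    [DecidableEq K] (h : Cl B V R t q W Δ m) (h' : Cl B V R t q W {γ} m) :
    Cl B V R t q W (insert γ Δ) m := by
  intro hm g hg hgΔ
  rcases Finset.mem_insert.1 hgΔ with h1 | h1
  · exact h' hm g hg (Finset.mem_singleton.2 h1)
  · exact h hm g hg h1

variable (B V R t) in
/-- the statement of the construction for the stages in `Δ` -/
def Stmt (Δ : Finset K) : Prop :=
  ∀ (D : ℕ) (q : Fn (Crd Λ K)) (M X : Finset ℕ), t ∉ q.dom → (∀ m ∈ M, Cl B V R t q M Δ m) →
    (∀ m ∈ X, dep R m ≤ D ∧ ∀ δ, (Crd.x δ, m) ∉ q.dom) →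
    ∃ q' ≤ q, ∃ M', M ⊆ M' ∧ X ⊆ M' ∧ t ∉ q'.dom ∧
      (∀ δ, (∀ γ ∈ Δ, γ < δ) → ∀ m, (Crd.x δ, m) ∈ q'.dom → (Crd.x δ, m) ∈ q.dom) ∧
      (∀ m ∈ M', Cl B V R t q' M' Δ m) ∧
      ∀ m ∈ M', m ∉ M → dep R m ≤ D ∧ ∀ δ, (∀ γ ∈ Δ, γ < δ) → (Crd.x δ, m) ∉ q'.dom

theorem exists_fresh {C : Type} (q : Fn C) : ∃ N, ∀ u ∈ q.dom, u.2 < N :=
  ⟨q.dom.sup (fun u => u.2) + 1, fun _ hu => Nat.lt_succ_of_le
    (Finset.le_sup (f := fun u : C × ℕ => u.2) hu)⟩

/-- Processing one node at the stage `γ`. -/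
theorem proc1 (i0 : ∀ δ, t.1 ≠ Crd.x δ) {γ : K} {Δ : Finset K} (hγ : ∀ δ ∈ Δ, δ < γ)
    (ih : Stmt B V R t Δ) {D : ℕ} (hD : D + 1 ≤ R) {q : Fn (Crd Λ K)} {W : Finset ℕ}
    (ht : t ∉ q.dom) (hW : ∀ m ∈ W, Cl B V R t q W Δ m) {z : ℕ} (hz : z ∈ W)
    (hzD : dep R z = D + 1) (hzf : ∀ δ, γ ≤ δ → (Crd.x δ, z) ∉ q.dom) :
    ∃ q' ≤ q, ∃ W', W ⊆ W' ∧ t ∉ q'.dom ∧
      (∀ δ, γ ≤ δ → ∀ m, (Crd.x δ, m) ∈ q'.dom → (Crd.x δ, m) ∈ q.dom ∨ (δ = γ ∧ m = z)) ∧
      (∀ m ∈ W', Cl B V R t q' W' Δ m) ∧ Cl B V R t q' W' {γ} z ∧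
      ∀ m ∈ W', m ∉ W → dep R m ≤ D ∧ ∀ δ, γ ≤ δ → (Crd.x δ, m) ∉ q'.dom := by
  classical
  -- the pairs of a scenario and a generator of stage `γ`
  let L : Finset (ℕ × Gn Λ K) := V ×ˢ B.filter fun g => g.1.1 = γ
  let j : ℕ := L.card + (z + 1)
  have hSp : ∀ a : ℕ × Gn Λ K, a ∈ L → ∀ n F, Sp (St γ) (meets (a.2.1.2 n F)) := by
    intro a ha n F
    have h1 : a.2.1.1 = γ := (Finset.mem_filter.1 (Finset.mem_product.1 ha).2).2
    rw [← h1]
    exact a.2.2.2 n F
  have hStγ : ∀ δ, γ ≤ δ → (Crd.x δ : Crd Λ K) ∉ St γ := fun δ hδ h => h δ hδ rfl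
  -- deciding when the sequences are small
  obtain ⟨q1, h11, h12, h13, h14⟩ := decL (U := St γ) (q := q) (t := t) (β := ℕ)
    (fun a : L => a.1.1) (fun a N => Sm a.1.2.1.2 j N) (fun a N => (reg_Sm _ _ _).1)
    (fun a N => sp_Sm (hSp a.1 a.2) _ _) Finset.univ (fun a _ r =>
      mem_fex.1 ((a.1.2.2.1 r).2 j) r le_rfl) ht
  choose N hN using fun a : L => h14 a (Finset.mem_univ a)
  -- choosing the successor
  obtain ⟨N', hN'⟩ := exists_fresh q1
  obtain ⟨y, hy, hyD⟩ := exists_dep (R := R) (d := D) (by omega)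
    (max N' (max z (Finset.univ.sup N)))
  have hyz : z ≤ y := (le_max_left _ _).trans ((le_max_right _ _).trans hy)
  have hyN : ∀ a : L, N a ≤ y := fun a =>
    (Finset.le_sup (f := N) (Finset.mem_univ a)).trans
      ((le_max_right _ _).trans ((le_max_right _ _).trans hy))
  have hyf : ∀ c, (c, y) ∉ q1.dom := fun c h => by
    have h1 := hN' _ h
    have h2 : N' ≤ y := (le_max_left _ _).trans hy
    exact absurd h1 (not_lt.2 h2)
  -- making the successor good for the stages below `γ`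
  obtain ⟨q2, h21, M2, h22, h23, h24, h25, h26, h27⟩ := ih D q1 W {y} h12
    (fun m hm => (hW m hm).mono h11 h12 subset_rfl subset_rfl)
    (fun m hm => by
      rw [Finset.mem_singleton] at hm
      subst hm
      exact ⟨hyD.le, fun δ => hyf _⟩)
  have hyM2 : y ∈ M2 := h23 (Finset.mem_singleton_self y)
  -- deciding the values at the successor
  obtain ⟨q3, h31, h32, h33, h34⟩ := decL (U := St γ) (q := q2) (t := t) (β := FS)
    (fun a : L => a.1.1) (fun a F => meets (a.1.2.1.2 y F)) (fun a F => (reg_meets _).1)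
    (fun a F => hSp a.1 a.2 y F) Finset.univ (fun a _ r =>
      isFun_total (a.1.2.2.1 r).1 y) h24
  choose F hF using fun a : L => h34 a (Finset.mem_univ a)
  have hsmall : ∀ a : L, lam (KK (F a)) ≤ (2⁻¹ : ℝ≥0∞) ^ j := fun a =>
    lam_le_of_Sm ((reg_Sm _ _ _).1 _ (hN a) _ (ins_le_ins (h31.trans h21) h32)) (hyN a) (hF a)
  let E : FS := Finset.univ.biUnion F
  have hE : lam (KK E) ≤ (2⁻¹ : ℝ≥0∞) ^ (z + 1) := by
    have h1 : KK E ⊆ ⋃ a ∈ (Finset.univ : Finset L), KK (F a) := by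
      intro x hx
      obtain ⟨s, hs, hxs⟩ := mem_iUnion₂.1 hx
      obtain ⟨a, ha, hsa⟩ := Finset.mem_biUnion.1 hs
      exact mem_iUnion₂.2 ⟨a, ha, mem_iUnion₂.2 ⟨s, hsa, hxs⟩⟩
    calc lam (KK E) ≤ ∑ a ∈ (Finset.univ : Finset L), lam (KK (F a)) :=
          (measure_mono h1).trans (measure_biUnion_finset_le _ _)
      _ ≤ ∑ a ∈ (Finset.univ : Finset L), (2⁻¹ : ℝ≥0∞) ^ j := Finset.sum_le_sum fun a _ => hsmall a
      _ = L.card * (2⁻¹ : ℝ≥0∞) ^ j := by
        rw [Finset.sum_const, nsmul_eq_mul, Finset.card_univ, Fintype.card_coe]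
      _ ≤ 2 ^ L.card * (2⁻¹ : ℝ≥0∞) ^ j := by
        refine mul_le_mul_left ?_ _
        exact_mod_cast (Nat.lt_two_pow_self (n := L.card)).le
      _ = (2⁻¹ : ℝ≥0∞) ^ (z + 1) := by
        rw [pow_add, ← mul_assoc, ← mul_pow, ENNReal.mul_inv_cancel two_ne_zero
          ENNReal.ofNat_ne_top, one_pow, one_mul]
  obtain ⟨v, hv, hv'⟩ := exists_code hyz hE
  have hz3 : (Crd.x γ, z) ∉ q3.dom := by
    intro h
    rcases h33 _ h with h | h
    · rcases h13 _ (h25 γ hγ z h) with h | h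
      · exact hzf γ le_rfl h
      · exact hStγ γ le_rfl h
    · exact hStγ γ le_rfl h
  obtain ⟨q4, h41, h42, h43, h44⟩ := exists_ext q3 (Crd.x γ, z) hz3 v
  have ht4 : t ∉ q4.dom := by
    intro h
    rcases h44 _ h with h | h
    · exact h32 h
    · exact i0 γ (congrArg Prod.fst h)
  have hframe : ∀ δ, γ ≤ δ → ∀ m, (Crd.x δ, m) ∈ q4.dom →
      (Crd.x δ, m) ∈ q2.dom ∨ (δ = γ ∧ m = z) := by
    intro δ hδ m h
    rcases h44 _ h with h | h
    · rcases h33 _ h with h | h
      · exact Or.inl h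
      · exact absurd h (hStγ δ hδ)
    · simp only [Prod.mk.injEq, Crd.x.injEq] at h
      exact Or.inr h
  refine ⟨q4, h41.trans (h31.trans (h21.trans h11)), M2, h22, ht4, fun δ hδ m h => ?_,
    fun m hm => (h26 m hm).mono (h41.trans h31) ht4 subset_rfl subset_rfl, fun _ g hg hgγ => ?_,
    fun m hm hmW => ?_⟩
  · rcases hframe δ hδ m h with h | h
    · rcases h13 _ (h25 δ (fun γ' hγ' => (hγ γ' hγ').trans_le hδ) m h) with h | h
      · exact Or.inl h
      · exact absurd h (hStγ δ hδ)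
    · exact Or.inr h
  · rw [Finset.mem_singleton] at hgγ
    refine ⟨v, ?_, fun s hs => ?_, ?_, ?_⟩
    · rw [hgγ]
      exact ⟨h42, h43⟩
    · rw [hv, hv']
      have haL : (s, g) ∈ L := Finset.mem_product.2 ⟨hs, Finset.mem_filter.2 ⟨hg, hgγ⟩⟩
      have h1 : ins t s q4 ∈ meets (g.1.2 y (F ⟨(s, g), haL⟩)) :=
        (reg_meets _).1 _ (hF ⟨(s, g), haL⟩) _ (ins_le_ins h41 ht4)
      refine mem_fex_of (F ⟨(s, g), haL⟩) fun r hr => mem_fex_of ?_ fun r' hr' => ?_
      · exact Finset.subset_biUnion_of_mem F (Finset.mem_univ _)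
      · exact (reg_meets _).1 _ h1 r' (hr'.trans hr)
    · rw [hv]
      exact hyM2
    · rw [hv, hyD, hzD]
  · obtain ⟨h1, h2⟩ := h27 m hm hmW
    refine ⟨h1, fun δ hδ h => ?_⟩
    rcases hframe δ hδ m h with h | h
    · exact h2 δ (fun γ' hγ' => (hγ γ' hγ').trans_le hδ) h
    · exact hmW (h.2 ▸ hz)

/-- Processing all nodes at the stage `γ`. -/
theorem proc (i0 : ∀ δ, t.1 ≠ Crd.x δ) {γ : K} {Δ : Finset K} (hγ : ∀ δ ∈ Δ, δ < γ)
    (ih : Stmt B V R t Δ) : ∀ (D : ℕ) (k : ℕ) (q : Fn (Crd Λ K)) (M U : Finset ℕ),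
    t ∉ q.dom → (∀ m ∈ M ∪ U, Cl B V R t q (M ∪ U) Δ m) →
    (∀ m ∈ M, Cl B V R t q (M ∪ U) {γ} m) →
    (∀ m ∈ U, dep R m ≤ D ∧ ∀ δ, γ ≤ δ → (Crd.x δ, m) ∉ q.dom) →
    (U.filter fun m => dep R m = D).card ≤ k →
    ∃ q' ≤ q, ∃ M', M ∪ U ⊆ M' ∧ t ∉ q'.dom ∧
      (∀ δ, γ < δ → ∀ m, (Crd.x δ, m) ∈ q'.dom → (Crd.x δ, m) ∈ q.dom) ∧
      (∀ m ∈ M', Cl B V R t q' M' Δ m) ∧ (∀ m ∈ M', Cl B V R t q' M' {γ} m) ∧
      ∀ m ∈ M', m ∉ M → dep R m ≤ D ∧ ∀ δ, γ < δ → (Crd.x δ, m) ∉ q'.dom := by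
  classical
  intro D
  induction D with
  | zero =>
    intro k q M U ht h1 h2 h3 _
    refine ⟨q, le_rfl, M ∪ U, subset_rfl, ht, fun _ _ _ h => h, h1, fun m hm => ?_,
      fun m hm hmM => ?_⟩
    · rcases Finset.mem_union.1 hm with hm | hm
      · exact h2 m hm
      · exact fun h => absurd (Nat.le_zero.1 (h3 m hm).1) h
    · rcases Finset.mem_union.1 hm with hm | hm
      · exact absurd hm hmM
      · exact ⟨(h3 m hm).1, fun δ hδ => (h3 m hm).2 δ hδ.le⟩
  | succ D ihD =>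
    intro k
    induction k with
    | zero =>
      intro q M U ht h1 h2 h3 h4
      have h5 : ∀ m ∈ U, dep R m ≤ D := by
        intro m hm
        by_contra hlt
        have h6 : dep R m = D + 1 := by
          have := (h3 m hm).1
          omega
        have h7 : m ∈ U.filter fun m => dep R m = D + 1 := Finset.mem_filter.2 ⟨hm, h6⟩
        rw [Finset.card_eq_zero.1 (Nat.le_zero.1 h4)] at h7
        simp at h7
      obtain ⟨q', hq', M', h6, h7, h8, h9, h10, h11⟩ := ihD _ q M U ht h1 h2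
        (fun m hm => ⟨h5 m hm, (h3 m hm).2⟩) le_rfl
      exact ⟨q', hq', M', h6, h7, h8, h9, h10, fun m hm hmM =>
        ⟨(h11 m hm hmM).1.trans (Nat.le_succ D), (h11 m hm hmM).2⟩⟩
    | succ k ihk =>
      intro q M U ht h1 h2 h3 h4
      by_cases hz : ∃ z ∈ U, dep R z = D + 1
      · obtain ⟨z, hzU, hzD⟩ := hz
        have hDR : D + 1 ≤ R := hzD ▸ dep_le R z
        obtain ⟨q1, hq1, W, h5, h6, h7, h8, h9, h10⟩ := proc1 i0 hγ ih hDR ht h1
          (Finset.mem_union_right M hzU) hzD (h3 z hzU).2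
        let M1 : Finset ℕ := insert z M
        let U1 : Finset ℕ := W \ M1
        have hM1 : M1 ∪ U1 = W := by
          have : M1 ⊆ W := by
            intro m hm
            rcases Finset.mem_insert.1 hm with rfl | hm
            · exact h5 (Finset.mem_union_right _ hzU)
            · exact h5 (Finset.mem_union_left _ hm)
          exact Finset.union_sdiff_of_subset this
        obtain ⟨q2, hq2, M2, h11, h12, h13, h14, h15, h16⟩ := ihk q1 M1 U1 h6
          (by rw [hM1]; exact h8)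
          (by
            rw [hM1]
            intro m hm
            rcases Finset.mem_insert.1 hm with rfl | hm
            · exact h9
            · exact (h2 m hm).mono hq1 h6 h5 subset_rfl)
          (by
            intro m hm
            obtain ⟨hmW, hmM1⟩ := Finset.mem_sdiff.1 hm
            have hmz : m ≠ z := fun h => hmM1 (h ▸ Finset.mem_insert_self _ _)
            have hmM : m ∉ M := fun h => hmM1 (Finset.mem_insert_of_mem h)
            by_cases hmU : m ∈ U
            · refine ⟨(h3 m hmU).1, fun δ hδ h => ?_⟩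
              rcases h7 δ hδ m h with h | h
              · exact (h3 m hmU).2 δ hδ h
              · exact hmz h.2
            · have h17 : m ∉ M ∪ U := fun h => by
                rcases Finset.mem_union.1 h with h | h
                · exact hmM h
                · exact hmU h
              exact ⟨(h10 m hmW h17).1.trans (Nat.le_succ D), (h10 m hmW h17).2⟩)
          (by
            have h17 : (U1.filter fun m => dep R m = D + 1) ⊆
                (U.filter fun m => dep R m = D + 1).erase z := by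
              intro m hm
              obtain ⟨hmU1, hmD⟩ := Finset.mem_filter.1 hm
              obtain ⟨hmW, hmM1⟩ := Finset.mem_sdiff.1 hmU1
              have hmz : m ≠ z := fun h => hmM1 (h ▸ Finset.mem_insert_self _ _)
              have hmM : m ∉ M := fun h => hmM1 (Finset.mem_insert_of_mem h)
              refine Finset.mem_erase.2 ⟨hmz, Finset.mem_filter.2 ⟨?_, hmD⟩⟩
              by_contra hmU
              have h18 : m ∉ M ∪ U := fun h => by
                rcases Finset.mem_union.1 h with h | h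
                · exact hmM h
                · exact hmU h
              have := (h10 m hmW h18).1
              omega
            have h18 : z ∈ U.filter fun m => dep R m = D + 1 := Finset.mem_filter.2 ⟨hzU, hzD⟩
            have h19 := Finset.card_le_card h17
            rw [Finset.card_erase_of_mem h18] at h19
            omega)
        refine ⟨q2, hq2.trans hq1, M2, fun m hm => h11 (by rw [hM1]; exact h5 hm), h12,
          fun δ hδ m h => ?_, h14, h15, fun m hm hmM => ?_⟩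
        · rcases h7 δ hδ.le m (h13 δ hδ m h) with h | h
          · exact h
          · exact absurd h.1 hδ.ne'
        · by_cases hmz : m = z
          · subst hmz
            refine ⟨hzD.le, fun δ hδ h => ?_⟩
            rcases h7 δ hδ.le m (h13 δ hδ m h) with h | h
            · exact (h3 m hzU).2 δ hδ.le h
            · exact absurd h.1 hδ.ne'
          · exact h16 m hm fun h => by
              rcases Finset.mem_insert.1 h with h | h
              · exact hmz h
              · exact hmM h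
      · push Not at hz
        refine ihk q M U ht h1 h2 h3 ?_
        have : (U.filter fun m => dep R m = D + 1) = ∅ := by
          rw [Finset.filter_eq_empty_iff]
          exact fun m hm => hz m hm
        rw [this]
        simp

theorem build (i0 : ∀ δ, t.1 ≠ Crd.x δ) (Δ : Finset K) : Stmt B V R t Δ := by
  classical
  induction Δ using Finset.induction_on_max with
  | empty =>
    intro D q M X ht h1 h2
    refine ⟨q, le_rfl, M ∪ X, Finset.subset_union_left, Finset.subset_union_right, ht,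
      fun _ _ _ h => h, fun m _ _ g _ hg => by simp at hg, fun m hm hmM => ?_⟩
    rcases Finset.mem_union.1 hm with hm | hm
    · exact absurd hm hmM
    · exact ⟨(h2 m hm).1, fun δ _ => (h2 m hm).2 δ⟩
  | insert γ Δ hγ ih =>
    intro D q M X ht h1 h2
    obtain ⟨q1, hq1, M1, h3, h4, h5, h6, h7, h8⟩ := ih D q M X ht
      (fun m hm => (h1 m hm).mono le_rfl ht subset_rfl (Finset.subset_insert _ _)) h2
    have hM1 : M ∪ (M1 \ M) = M1 := Finset.union_sdiff_of_subset h3
    obtain ⟨q2, hq2, M2, h9, h10, h11, h12, h13, h14⟩ := proc i0 hγ ih D _ q1 M (M1 \ M) h5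
      (by rw [hM1]; exact h7)
      (by
        rw [hM1]
        exact fun m hm => (h1 m hm).mono hq1 h5 h3
          (Finset.singleton_subset_iff.2 (Finset.mem_insert_self _ _)))
      (by
        intro m hm
        obtain ⟨hmM1, hmM⟩ := Finset.mem_sdiff.1 hm
        exact ⟨(h8 m hmM1 hmM).1, fun δ hδ =>
          (h8 m hmM1 hmM).2 δ fun γ' hγ' => (hγ γ' hγ').trans_le hδ⟩)
      le_rfl
    rw [hM1] at h9
    refine ⟨q2, hq2.trans hq1, M2, h3.trans h9, h4.trans h9, h10, fun δ hδ m h => ?_,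
      fun m hm => (h12 m hm).union (h13 m hm), fun m hm hmM => ?_⟩
    · exact h6 δ (fun γ' hγ' => hδ γ' (Finset.mem_insert_of_mem hγ')) m
        (h11 δ (hδ γ (Finset.mem_insert_self _ _)) m h)
    · exact ⟨(h14 m hm hmM).1, fun δ hδ => (h14 m hm hmM).2 δ
        (hδ γ (Finset.mem_insert_self _ _))⟩

end Build

/-- The main construction. -/
theorem tree (B : Finset (Gn Λ K)) (R m0 : ℕ) (p : Fn (Crd Λ K)) (i : Λ) (V : ℕ → Finset ℕ) :
    ∃ n, m0 ≤ n ∧ ∃ q ≤ p, (Crd.c i, n) ∉ q.dom ∧ ∀ s ∈ V n, ins (Crd.c i, n) s q ∈ TT B R n := by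
  classical
  obtain ⟨N, hN⟩ := exists_fresh p
  obtain ⟨n, hn, hnR⟩ := exists_dep (R := R) le_rfl (max m0 N)
  have hf : ∀ c, (c, n) ∉ p.dom := fun c h => by
    have h1 := hN _ h
    have h2 : N ≤ n := (le_max_right _ _).trans hn
    exact absurd h1 (not_lt.2 h2)
  obtain ⟨q, hq, M, -, h1, h2, -, h3, -⟩ := build (B := B) (V := V n) (R := R)
    (t := (Crd.c i, n)) (fun δ => by simp) (B.image fun g => g.1.1) R p ∅ {n} (hf _)
    (fun m hm => by simp at hm) (fun m hm => by
      rw [Finset.mem_singleton] at hm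
      subst hm
      exact ⟨hnR.le, fun δ => hf _⟩)
  refine ⟨n, (le_max_left _ _).trans hn, q, hq, h2, fun s hs => ?_⟩
  have key : ∀ r m, m ∈ M → dep R m = r → ins (Crd.c i, n) s q ∈ TT B r m := by
    intro r
    induction r with
    | zero => exact fun _ _ _ => trivial
    | succ r ih =>
      intro m hm hmr g hg
      obtain ⟨v, h4, h5, h6, h7⟩ := h3 m hm (by omega) g hg (Finset.mem_image_of_mem _ hg)
      refine mem_fex_of v fun r' hr' => ⟨?_, ?_, ?_⟩
      · exact down_gr _ _ _ q h4 r' (hr'.trans (ins_le h2))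
      · exact (reg_fex _).1 _ (h5 s hs) r' hr'
      · exact down_TT B r _ _ (ih (uu m v) h6 (by omega)) r' hr'
  exact key R n (h1 (Finset.mem_singleton_self n)) hnR

end Pool.Agent.R592.Nj
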